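import Pool.Agent.Lib.MP_64d474_lc.SF.Frob52
import Pool.Agent.Lib.MP_64d474_lc.AK.RowH82

/-!
# The class `E c` of fractions killed by `c` residues (characteristic `p`)
-/

set_option autoImplicit false

namespace SF

open Polynomial

section cls

variable {F : Type*} [Field F] {σ : Type*} {K : Type*} [Field K] [Algebra (MvPolynomial σ F) K]
  [IsFractionRing (MvPolynomial σ F) K]

/-- `t` is, for every power `q` of `p`, a sum of terms `G h ^ q`, where
`deg G + (q - 1) ≤ c (q - 1) + C`. -/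
def Cl (F : Type*) [Field F] (σ : Type*) {K : Type*} [Field K] [Algebra (MvPolynomial σ F) K]
    (p c : ℕ) (t : K) : Prop :=
  ∃ C : ℕ, ∀ n : ℕ, t ∈ AddSubgroup.closure {x : K |
    ∃ (G : MvPolynomial σ F) (h : K), x = algebraMap (MvPolynomial σ F) K G * h ^ p ^ n ∧
      G.totalDegree + (p ^ n - 1) ≤ c * (p ^ n - 1) + C}

theorem Cl.frac {p : ℕ} (hp : p.Prime) (a b : MvPolynomial σ F) :
    Cl F σ p (b.totalDegree + 1)
      (algebraMap (MvPolynomial σ F) K a / algebraMap (MvPolynomial σ F) K b) := by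
  refine ⟨a.totalDegree, fun n => AddSubgroup.subset_closure
    ⟨a * b ^ (p ^ n - 1), (algebraMap _ _ b)⁻¹, ?_, ?_⟩⟩
  · have hq : 0 < p ^ n := pow_pos hp.pos n
    rcases eq_or_ne b 0 with rfl | hb
    · rw [map_zero, div_zero, inv_zero, zero_pow hq.ne', mul_zero]
    · have hb' : algebraMap (MvPolynomial σ F) K b ≠ 0 := by
        rwa [Ne, IsFractionRing.to_map_eq_zero_iff]
      rw [map_mul, map_pow, div_eq_mul_inv, mul_assoc]
      congr 1
      obtain ⟨q, hq'⟩ : ∃ q, p ^ n = q + 1 := ⟨p ^ n - 1, by omega⟩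
      rw [hq', Nat.add_sub_cancel, pow_succ, ← mul_assoc, ← mul_pow, mul_inv_cancel₀ hb', one_pow,
        one_mul]
  · have h1 := MvPolynomial.totalDegree_mul a (b ^ (p ^ n - 1))
    have h2 := MvPolynomial.totalDegree_pow b (p ^ n - 1)
    have h3 : (b.totalDegree + 1) * (p ^ n - 1) =
      (p ^ n - 1) * b.totalDegree + (p ^ n - 1) := by ring
    omega

omit [IsFractionRing (MvPolynomial σ F) K] in
theorem Cl.zero {p : ℕ} (hp : p.Prime) {t : K} (h : Cl F σ p 0 t) : t = 0 := by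
  obtain ⟨C, hC⟩ := h
  have h1 := hC (C + 1)
  have hlt : C + 1 < p ^ (C + 1) := Nat.lt_pow_self hp.one_lt
  have he : {x : K | ∃ (G : MvPolynomial σ F) (h : K),
      x = algebraMap (MvPolynomial σ F) K G * h ^ p ^ (C + 1) ∧
      G.totalDegree + (p ^ (C + 1) - 1) ≤ 0 * (p ^ (C + 1) - 1) + C} = ∅ := by
    rw [Set.eq_empty_iff_forall_notMem]
    rintro x ⟨G, h, -, h2⟩
    omega
  rw [he, AddSubgroup.closure_empty] at h1
  exact AddSubgroup.mem_bot.mp h1

/-- Residues lower the class: `τ` is any extension of `sh u` to fractions. -/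
theorem Cl.res {p : ℕ} [Fact p.Prime] [CharP F p] {L : Type*} [Field L] [Algebra K[X] L]
    [IsFractionRing K[X] L] (u : σ → F) (τ : K →+* L)
    (hτ : ∀ a : MvPolynomial σ F, τ (algebraMap (MvPolynomial σ F) K a) =
      algebraMap K[X] L ((AK.sh u a).map (algebraMap (MvPolynomial σ F) K)))
    {Q : K[X]} (hQ : Q ≠ 0) (g : (MvPolynomial σ F)[X]) {c : ℕ} {t r : K}
    (ht : Cl F σ p (c + 1) t)
    (hr : Pool.Agent.Lib.MP_64d474_lc.GF.IsRes Q
      (algebraMap K[X] L (g.map (algebraMap (MvPolynomial σ F) K)) * τ t) r) :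
    Cl F σ p c r := by
  classical
  have : CharP K p := charP_of_injective_algebraMap
    (IsFractionRing.injective (MvPolynomial σ F) K) p
  obtain ⟨ι, hι⟩ : ∃ ι : MvPolynomial σ F →+* K, ι = algebraMap _ _ := ⟨_, rfl⟩
  rw [← hι] at hτ hr
  unfold Cl at ht ⊢
  rw [← hι] at ht ⊢
  obtain ⟨C, hC⟩ := ht
  obtain ⟨B, hB⟩ : ∃ B, g ∈ AK.filtX F σ B := by
    refine ⟨(Finset.range (g.natDegree + 1)).sup fun i => (g.coeff i).totalDegree + i, fun j => ?_⟩
    by_cases hj : j ∈ Finset.range (g.natDegree + 1)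
    · exact Or.inr (Finset.le_sup (f := fun i => (g.coeff i).totalDegree + i) hj)
    · exact Or.inl (coeff_eq_zero_of_natDegree_lt (by simpa using hj))
  obtain ⟨Φ, hΦ⟩ : ∃ Φ : K →+ K, Φ = (rho (L := L) Q hQ).comp ((AddMonoidHom.mulLeft
    (algebraMap K[X] L (g.map ι))).comp τ.toAddMonoidHom) := ⟨_, rfl⟩
  have hΦt : ∀ x, Φ x = rho Q hQ (algebraMap K[X] L (g.map ι) * τ x) := fun x => by
    rw [hΦ]; rfl
  have hrΦ : r = Φ t := by
    rw [hΦt]; exact (Pool.Agent.Lib.MP_64d474_lc.GF.rho_eq52 hQ hr).symm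
  refine ⟨C + B, fun n => ?_⟩
  rw [hrΦ]
  have hp : p.Prime := Fact.out
  have hq : 0 < p ^ n := pow_pos hp.pos n
  suffices hle : AddSubgroup.closure {x : K | ∃ (G : MvPolynomial σ F) (h : K),
      x = ι G * h ^ p ^ n ∧ G.totalDegree + (p ^ n - 1) ≤ (c + 1) * (p ^ n - 1) + C} ≤
      (AddSubgroup.closure {x : K | ∃ (G : MvPolynomial σ F) (h : K),
      x = ι G * h ^ p ^ n ∧ G.totalDegree + (p ^ n - 1) ≤ c * (p ^ n - 1) + (C + B)}).comap Φ from
    hle (hC n)
  rw [AddSubgroup.closure_le]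
  rintro x ⟨G, h, rfl, hG⟩
  rw [SetLike.mem_coe, AddSubgroup.mem_comap]
  obtain ⟨f, hf⟩ : ∃ f : (MvPolynomial σ F)[X], f = g * AK.sh u G := ⟨_, rfl⟩
  have hfX : f ∈ AK.filtX F σ (B + G.totalDegree) := hf ▸ AK.filtX_mul hB (AK.sh_mem_filtX u G)
  have h1 : algebraMap K[X] L (g.map ι) * τ (ι G * h ^ p ^ n) =
      ∑ e ∈ Finset.range (f.natDegree + 1), algebraMap K[X] L (Polynomial.C (ι (f.coeff e))) *
        (algebraMap K[X] L (X ^ (e % p ^ n)) *
          (algebraMap K[X] L (X ^ (e / p ^ n)) * τ h) ^ p ^ n) := by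
    have h2 : f.map ι = ∑ e ∈ Finset.range (f.natDegree + 1),
        Polynomial.C (ι (f.coeff e)) * X ^ e := by
      conv_lhs => rw [f.as_sum_range_C_mul_X_pow]
      simp [Polynomial.map_sum]
    rw [map_mul, map_pow, hτ, ← mul_assoc, ← map_mul, ← Polynomial.map_mul, ← hf, h2, map_sum,
      Finset.sum_mul]
    refine Finset.sum_congr rfl fun e _ => ?_
    have h3 : (X : K[X]) ^ e = X ^ (e % p ^ n) * (X ^ (e / p ^ n)) ^ p ^ n := by
      rw [← pow_mul, ← pow_add, mul_comm (e / p ^ n), Nat.mod_add_div]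
    rw [h3, map_mul, map_mul, map_pow (algebraMap K[X] L) (X ^ (e / p ^ n)) (p ^ n)]
    ring
  rw [hΦt, h1, map_sum]
  refine AddSubgroup.sum_mem _ fun e _ => ?_
  rw [rho_smul, rho_frob Q hQ _ n _ (Nat.mod_lt _ hq)]
  split_ifs with hb
  · rcases hfX e with h0 | h0
    · rw [h0, map_zero, zero_mul]; exact AddSubgroup.zero_mem _
    · refine AddSubgroup.subset_closure ⟨f.coeff e, _, rfl, ?_⟩
      have h3 : p ^ n - 1 ≤ e := by
        have := Nat.mod_le e (p ^ n)
        omega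
      have h4 : (c + 1) * (p ^ n - 1) = c * (p ^ n - 1) + (p ^ n - 1) := by ring
      omega
  · rw [mul_zero]; exact AddSubgroup.zero_mem _

end cls

end SF
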