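import Pool.Agent.Lib.MP_64d474_lc.SF.Defs46
import Pool.Agent.Lib.MP_64d474_lc.SF.Class52

/-!
# Rows CL0, CL1, CL2
-/

set_option autoImplicit false

namespace Pool.Agent.Lib.MP_64d474_lc.SF

open Polynomial

universe u

theorem ee_iff52 {F : Type u} [Field F] {m : ℕ} {p c : ℕ} {t : KK F m} :
    EE p c t ↔ _root_.SF.Cl F (Fin m) p c t := by
  unfold EE _root_.SF.Cl
  have h : ∀ (C n : ℕ), {x : KK F m | ∃ (G : MvPolynomial (Fin m) F)
      (h : KK F m), G.totalDegree + (p ^ n - 1) ≤ c * (p ^ n - 1) + C ∧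
      x = algebraMap _ (KK F m) G * h ^ p ^ n} = {x : KK F m |
    ∃ (G : MvPolynomial (Fin m) F) (h : KK F m),
      x = algebraMap (MvPolynomial (Fin m) F) (KK F m) G * h ^ p ^ n ∧
      G.totalDegree + (p ^ n - 1) ≤ c * (p ^ n - 1) + C} := by
    intro C n
    ext x
    constructor
    · rintro ⟨G, h, h1, h2⟩; exact ⟨G, h, h2, h1⟩
    · rintro ⟨G, h, h1, h2⟩; exact ⟨G, h, h2, h1⟩
  simp only [h]

theorem cl0_52 : StCL0.{u} := by
  intro F _ p hp m t ht
  exact _root_.SF.Cl.zero hp.out (ee_iff52.mp ht)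

theorem ee_mono52 {F : Type u} [Field F] {m : ℕ} {p c c' : ℕ} (h : c ≤ c') {t : KK F m}
    (ht : EE p c t) : EE p c' t := by
  obtain ⟨C, hC⟩ := ht
  refine ⟨C, fun n => AddSubgroup.closure_mono ?_ (hC n)⟩
  rintro x ⟨G, h1, h2, h3⟩
  exact ⟨G, h1, h2.trans (Nat.add_le_add_right (Nat.mul_le_mul_right _ h) _), h3⟩

theorem cl1_52 : StCL1.{u} := by
  intro F _ p hp m c a b _ hc
  exact ee_mono52 (Nat.succ_le_succ hc) (ee_iff52.mpr (_root_.SF.Cl.frac hp.out a b))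

theorem tp_eq52 {F : Type u} [Field F] {m : ℕ} (i : Fin m) (a : MvPolynomial (Fin m) F) :
    tp i a = (AK.sh (Pi.single i (1 : F)) a).map (algebraMap (MvPolynomial (Fin m) F) (KK F m)) :=
  rfl

theorem cl2_52 : StCL2.{u} := by
  intro F _ p hp _ m c t ht i P hP κ j r hr
  rw [ee_iff52] at ht ⊢
  have hQ : tp i P ≠ 0 := by
    rintro h0
    rw [h0, natDegree_zero] at hP
    exact lt_irrefl _ hP
  refine _root_.SF.Cl.res (L := FractionRing (KK F m)[X]) (Pi.single i (1 : F)) (tau i)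
    (fun a => tau_algebraMap i a) hQ (AK.sh (Pi.single i (1 : F)) P ^ κ * X ^ j) ht ?_
  have he : ((AK.sh (Pi.single i (1 : F)) P ^ κ * X ^ j : (MvPolynomial (Fin m) F)[X]).map
      (algebraMap (MvPolynomial (Fin m) F) (KK F m))) = tp i P ^ κ * X ^ j := by
    rw [Polynomial.map_mul, Polynomial.map_pow, Polynomial.map_pow, Polynomial.map_X, tp_eq52]
  rw [he]
  exact hr

end Pool.Agent.Lib.MP_64d474_lc.SF
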