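import Pool.Agent.Lib.MP_64d474_lc.SF.Defs46
import Pool.Agent.Lib.MP_64d474_lc.GF.CR99
import Pool.Agent.Lib.MP_64d474_lc.GF.Gauss99
import Pool.Agent.Lib.MP_64d474_lc.S3.Shift97
import Pool.Agent.Lib.MP_64d474_lc.AK.RowH82

/-!
# Row CR: residues have bounded degree and commute with specialisation
-/

set_option autoImplicit false

open Polynomial

namespace Pool.Agent.Lib.MP_64d474_lc.SF

universe u

variable {F : Type u} [Field F] {m : ℕ}

/-- the shift in the direction `i` -/
noncomputable abbrev shi (i : Fin m) : MvPolynomial (Fin m) F →ₐ[F] (MvPolynomial (Fin m) F)[X] :=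
  AK.sh (Pi.single i (1 : F))

theorem totalDegree_det_le99 {N E : ℕ}
    (M : Matrix (Fin N) (Fin N) (MvPolynomial (Fin m) F)) (h : ∀ i j, (M i j).totalDegree ≤ E) :
    M.det.totalDegree ≤ N * E := by
  rw [Matrix.det_apply]
  refine MvPolynomial.totalDegree_finsetSum_le fun σ _ => ?_
  have h2 : (∏ i, M (σ i) i).totalDegree ≤ N * E := by
    refine (MvPolynomial.totalDegree_finset_prod _ _).trans ?_
    refine (Finset.sum_le_sum fun i _ => h (σ i) i).trans ?_
    simp
  rcases Int.units_eq_one_or (Equiv.Perm.sign σ) with h1 | h1 <;> rw [h1]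
  · rwa [one_smul]
  · rw [Units.neg_smul, one_smul, MvPolynomial.totalDegree_neg]
    exact h2

theorem totalDegree_ccol {n E : ℕ} {B G : (MvPolynomial (Fin m) F)[X]}
    (hB : ∀ i, (B.coeff i).totalDegree ≤ E) (hG : ∀ i, (G.coeff i).totalDegree ≤ E) (j i : ℕ) :
    ((GF.ccol n B G j).coeff i).totalDegree ≤ E := by
  rw [GF.ccol]
  split_ifs
  · rw [coeff_X_pow_mul']
    split_ifs
    · exact hB _
    · simp
  · rw [coeff_X_pow_mul']
    split_ifs
    · exact hG _
    · simp

theorem totalDegree_cramer {n N E : ℕ} {B G A : (MvPolynomial (Fin m) F)[X]}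
    (hB : ∀ i, (B.coeff i).totalDegree ≤ E) (hG : ∀ i, (G.coeff i).totalDegree ≤ E)
    (hA : ∀ i, (A.coeff i).totalDegree ≤ E) (i : ℕ) :
    ((GF.cU n N ((GF.cmat n N B G).cramer fun j : Fin (n + N) => A.coeff (j : ℕ))).coeff
      i).totalDegree ≤ (n + N) * E := by
  rw [GF.coeff_cU]
  split_ifs with h
  · rw [Matrix.cramer_apply]
    apply totalDegree_det_le99
    intro a b
    rw [Matrix.updateCol_apply]
    split_ifs
    · exact hA _
    · rw [GF.cmat, Matrix.of_apply]
      exact totalDegree_ccol hB hG _ _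
  · simp

theorem sh_eq99 (u : Fin m → F) (a : MvPolynomial (Fin m) F) : AK.sh u a = S3.sh u a := by
  have h : (AK.sh u : MvPolynomial (Fin m) F →ₐ[F] _) = S3.sh u := by
    apply MvPolynomial.algHom_ext
    intro i
    rw [AK.sh, S3.sh, MvPolynomial.aeval_X, MvPolynomial.aeval_X, mul_comm X]
  rw [h]

theorem prime_shi (i : Fin m) {P : MvPolynomial (Fin m) F} (hP : Irreducible P) :
    Prime (shi i P) := by
  rw [shi, sh_eq99]
  exact S3.prime_sh _ hP.prime

theorem shi_dvd (i : Fin m) {P b : MvPolynomial (Fin m) F} (h : shi i P ∣ shi i b) : P ∣ b := by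
  obtain ⟨g, hg⟩ := h
  refine ⟨g.eval 0, ?_⟩
  have h1 := congrArg (Polynomial.eval 0) hg
  rw [eval_mul, shi, sh_eq99, sh_eq99, S3.sh_eval_zero, S3.sh_eval_zero] at h1
  exact h1

theorem sp_eq (i : Fin m) (φ : MvPolynomial (Fin m) F →+* MvPolynomial (Fin m) F)
    (a : MvPolynomial (Fin m) F) :
    sp i φ a = (shi i a).map ((algebraMap (MvPolynomial (Fin m) F) (KK F m)).comp φ) := rfl

theorem tp_eq (i : Fin m) (a : MvPolynomial (Fin m) F) :
    tp i a = (shi i a).map (algebraMap (MvPolynomial (Fin m) F) (KK F m)) := rfl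

theorem natDegree_tp (i : Fin m) (a : MvPolynomial (Fin m) F) :
    (tp i a).natDegree = (shi i a).natDegree := by
  rw [tp_eq]
  exact natDegree_map_eq_of_injective (IsFractionRing.injective _ _) _

/-- the data of row CR -/
theorem cr_core (D : ℕ) (a b P : MvPolynomial (Fin m) F)
    (i : Fin m) (κ j : ℕ) (ha : a.totalDegree ≤ D) (hb : b.totalDegree ≤ D) (hb0 : b ≠ 0)
    (hPD : P.totalDegree ≤ D) (hP : Irreducible P) (hd : 0 < (shi i P).natDegree) (hκ : κ ≤ D)
    (hj : j ≤ D) :
    ∃ u w : MvPolynomial (Fin m) F, w ≠ 0 ∧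
      u.totalDegree ≤ ((D + 1) * D + ((D + 1) * D + 2 * D)) * ((D + 2) * D) + (D + 1) * D ∧
      w.totalDegree ≤ ((D + 1) * D + ((D + 1) * D + 2 * D)) * ((D + 2) * D) + (D + 1) * D ∧
      ∀ ψ : MvPolynomial (Fin m) F →+* KK F m, ψ w ≠ 0 →
        (shi i b).map ψ ≠ 0 ∧ (shi i P).map ψ ≠ 0 ∧
        GF.IsRes ((shi i P).map ψ)
          (algebraMap _ (FractionRing (KK F m)[X]) ((shi i P).map ψ ^ κ * X ^ j) *
          (algebraMap _ (FractionRing (KK F m)[X]) ((shi i a).map ψ) /
            algebraMap _ (FractionRing (KK F m)[X]) ((shi i b).map ψ)))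
          (ψ u / ψ w) := by
  obtain ⟨o, b', hb', hbe⟩ := WfDvdMonoid.max_power_factor hb0 hP
  have hP0 : P ≠ 0 := hP.ne_zero
  have hb'0 : b' ≠ 0 := by
    rintro rfl
    exact hb' (dvd_zero _)
  have hinjs : Function.Injective (shi i : MvPolynomial (Fin m) F → _) := by
    intro x y hxy
    have h1 := congrArg (Polynomial.eval 0) hxy
    rw [shi, sh_eq99, sh_eq99, S3.sh_eval_zero, S3.sh_eval_zero] at h1
    exact h1
  set Q := shi i P with hQ
  set B := shi i b' with hB
  have hQ0 : Q ≠ 0 := ne_of_apply_ne natDegree (by simpa using hd.ne')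
  have hB0 : B ≠ 0 := by
    rw [hB, Ne, map_eq_zero_iff _ hinjs]
    exact hb'0
  have hQn : Q.natDegree ≤ D := (AK.sh_natDegree_le _ P).trans hPD
  have hb'D : b'.totalDegree ≤ D :=
    (MvPolynomial.totalDegree_le_of_dvd_of_isDomain ⟨P ^ o, by rw [hbe, mul_comm]⟩ hb0).trans hb
  have hshb : shi i b = Q ^ o * B := by rw [hbe, map_mul, map_pow]
  have hoD : o ≤ D := by
    have h1 : (shi i b).natDegree ≤ D := (AK.sh_natDegree_le _ b).trans hb
    rw [hshb, natDegree_mul (pow_ne_zero _ hQ0) hB0, natDegree_pow] at h1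
    have h2 : o * 1 ≤ o * Q.natDegree := Nat.mul_le_mul_left o hd
    omega
  have hBn : B.natDegree ≤ (D + 1) * D + 2 * D :=
    ((AK.sh_natDegree_le _ b').trans hb'D).trans (by nlinarith)
  set n := (o + 1) * Q.natDegree with hn
  set N := (D + 1) * D + 2 * D with hN
  set G := Q ^ (o + 1) with hG
  have hGn : G.natDegree ≤ n := by rw [hG, natDegree_pow]
  set A := shi i (P ^ (κ + 1) * a) * X ^ j with hA
  have hn1 : 1 ≤ n := Nat.mul_pos (Nat.succ_pos _) hd
  have hPa : (P ^ (κ + 1) * a).totalDegree ≤ (D + 1) * D + D := by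
    refine (MvPolynomial.totalDegree_mul _ _).trans (Nat.add_le_add ?_ ha)
    refine (MvPolynomial.totalDegree_pow _ _).trans ?_
    exact Nat.mul_le_mul (by omega) hPD
  have hAn : A.natDegree ≤ N := by
    refine natDegree_mul_le.trans ?_
    rw [natDegree_X_pow]
    have : (shi i (P ^ (κ + 1) * a)).natDegree ≤ (D + 1) * D + D :=
      (AK.sh_natDegree_le (Pi.single i (1 : F)) (P ^ (κ + 1) * a)).trans hPa
    omega
  have hAz : ∀ i, n + N ≤ i → A.coeff i = 0 := fun i hi =>
    coeff_eq_zero_of_natDegree_lt (by omega)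
  have h1z : ∀ i, n + N ≤ i → (1 : (MvPolynomial (Fin m) F)[X]).coeff i = 0 := fun i hi => by
    rw [coeff_one, if_neg (by omega)]
  -- injectivity
  have hpr : Prime Q := prime_shi i hP
  have hcop : IsCoprime (B.map (algebraMap (MvPolynomial (Fin m) F) (KK F m)))
      (Q.map (algebraMap (MvPolynomial (Fin m) F) (KK F m))) :=
    GF.coprime_map99 hpr hd fun h => hb' (shi_dvd i h)
  have hdet : (GF.cmat n N B G).det ≠ 0 := by
    apply GF.det_cmat_ne hBn hGn
    intro U V hU hUV
    have h1 := congrArg (Polynomial.map (algebraMap (MvPolynomial (Fin m) F) (KK F m))) hUV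
    rw [Polynomial.map_add, Polynomial.map_mul, Polynomial.map_mul, hG, Polynomial.map_pow,
      Polynomial.map_zero] at h1
    have hinj : Function.Injective (algebraMap (MvPolynomial (Fin m) F) (KK F m)) :=
      IsFractionRing.injective _ _
    have h2 : (Q.map (algebraMap (MvPolynomial (Fin m) F) (KK F m))) ^ (o + 1) ∣
        U.map (algebraMap (MvPolynomial (Fin m) F) (KK F m)) := by
      have hc : IsCoprime ((Q.map (algebraMap (MvPolynomial (Fin m) F) (KK F m))) ^ (o + 1))
        (B.map (algebraMap (MvPolynomial (Fin m) F) (KK F m))) := hcop.symm.pow_left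
      apply hc.dvd_of_dvd_mul_right
      refine ⟨-V.map (algebraMap (MvPolynomial (Fin m) F) (KK F m)), ?_⟩
      linear_combination h1
    have h3 : U.map (algebraMap (MvPolynomial (Fin m) F) (KK F m)) = 0 := by
      apply Polynomial.eq_zero_of_dvd_of_degree_lt h2
      rw [degree_map_eq_of_injective hinj]
      refine lt_of_lt_of_le hU ?_
      rw [degree_pow, degree_map_eq_of_injective hinj, degree_eq_natDegree hQ0, hn]
      simp
    have h4 : U = 0 := by
      rwa [Polynomial.map_eq_zero_iff hinj] at h3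
    refine ⟨h4, ?_⟩
    rw [h4, zero_mul, zero_add] at hUV
    rcases mul_eq_zero.mp hUV with h5 | h5
    · exact h5
    · exact absurd h5 (pow_ne_zero _ hQ0)
  -- degrees of the coefficients
  set E := (D + 2) * D with hE
  have hBE : ∀ i, (B.coeff i).totalDegree ≤ E := fun l =>
    ((AK.sh_coeff_totalDegree _ b' l).trans (Nat.sub_le _ _)).trans (hb'D.trans (by rw [hE]; nlinarith))
  have hGE : ∀ i, (G.coeff i).totalDegree ≤ E := fun l => by
    have h1 : G = shi i (P ^ (o + 1)) := by rw [map_pow]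
    rw [h1]
    refine ((AK.sh_coeff_totalDegree _ _ l).trans (Nat.sub_le _ _)).trans ?_
    refine (MvPolynomial.totalDegree_pow _ _).trans ?_
    exact (Nat.mul_le_mul (by omega : o + 1 ≤ D + 2) hPD)
  have hAE : ∀ i, (A.coeff i).totalDegree ≤ E := fun l => by
    rw [hA, coeff_mul_X_pow']
    split_ifs
    · refine ((AK.sh_coeff_totalDegree _ _ _).trans (Nat.sub_le _ _)).trans (hPa.trans ?_)
      rw [hE]
      nlinarith
    · simp
  have hsize : (n + N) * E ≤ ((D + 1) * D + ((D + 1) * D + 2 * D)) * ((D + 2) * D) := by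
    apply Nat.mul_le_mul _ (le_refl _)
    have : n ≤ (D + 1) * D := Nat.mul_le_mul (by omega) hQn
    omega
  have hlcD : (Q.leadingCoeff ^ (o + 1)).totalDegree ≤ (D + 1) * D := by
    refine (MvPolynomial.totalDegree_pow _ _).trans ?_
    refine Nat.mul_le_mul (by omega) ?_
    exact ((AK.sh_coeff_totalDegree _ _ _).trans (Nat.sub_le _ _)).trans hPD
  have hdetE : (GF.cmat n N B G).det.totalDegree ≤ (n + N) * E := by
    apply totalDegree_det_le99
    intro x y
    rw [GF.cmat, Matrix.of_apply]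
    exact totalDegree_ccol hBE hGE _ _
  refine ⟨(GF.cU n N ((GF.cmat n N B G).cramer fun l : Fin (n + N) => A.coeff (l : ℕ))).coeff
    ((o + 1) * Q.natDegree - 1), (GF.cmat n N B G).det * Q.leadingCoeff ^ (o + 1),
    mul_ne_zero hdet (pow_ne_zero _ (leadingCoeff_ne_zero.mpr hQ0)),
    ((totalDegree_cramer hBE hGE hAE _).trans hsize).trans (Nat.le_add_right _ _),
    (MvPolynomial.totalDegree_mul _ _).trans (Nat.add_le_add (hdetE.trans hsize) hlcD), ?_⟩
  intro ψ hψ
  have hψ2 := hψ
  rw [map_mul, map_pow] at hψ2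
  have hs : ψ (GF.cmat n N B G).det ≠ 0 := left_ne_zero_of_mul hψ2
  have hl : ψ Q.leadingCoeff ≠ 0 := by
    intro h0
    rw [h0, zero_pow (Nat.succ_ne_zero _), mul_zero] at hψ2
    exact hψ2 rfl
  have e1 := GF.cramer_eq (A := A) hBn hGn hAz
  have e2 := GF.cramer_eq (A := 1) hBn hGn h1z
  rw [mul_one] at e2
  have hQd : (Q.map ψ).natDegree = Q.natDegree := natDegree_map_of_leadingCoeff_ne_zero ψ hl
  have hQψ : Q.map ψ ≠ 0 := ne_of_apply_ne natDegree (by rw [hQd]; simpa using hd.ne')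
  have hBψ : B.map ψ ≠ 0 := by
    intro h0
    have h1 := congrArg (Polynomial.map ψ) e2
    have hG' : Polynomial.map ψ G = Q.map ψ ^ (o + 1) := by rw [hG, Polynomial.map_pow]
    rw [Polynomial.map_add, Polynomial.map_mul, Polynomial.map_mul, h0, mul_zero, zero_add, hG',
      map_C] at h1
    have h2 : Q.map ψ ∣ C (ψ (GF.cmat n N B G).det) := by
      rw [← h1]
      exact (dvd_pow_self _ (Nat.succ_ne_zero o)).mul_left _
    have h3 := natDegree_le_of_dvd h2 (C_ne_zero.mpr hs)
    rw [natDegree_C, hQd] at h3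
    omega
  have hbψ : (shi i b).map ψ = Q.map ψ ^ o * B.map ψ := by
    rw [hshb, Polynomial.map_mul, Polynomial.map_pow]
  refine ⟨by rw [hbψ]; exact mul_ne_zero (pow_ne_zero _ hQψ) hBψ, hQψ, ?_⟩
  have h3 := GF.isRes_of_identity (L := FractionRing (KK F m)[X]) ψ
    (GF.degree_cU_lt n N _) e1 e2 hs hl hBψ
  convert h3 using 1
  rw [hbψ, hA, map_mul, map_pow]
  have hq : algebraMap _ (FractionRing (KK F m)[X]) (Q.map ψ) ≠ 0 := GF.algebraMap_ne hQψ
  have hbb : algebraMap _ (FractionRing (KK F m)[X]) (B.map ψ) ≠ 0 := GF.algebraMap_ne hBψ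
  simp only [Polynomial.map_mul, Polynomial.map_pow, map_mul, map_pow, Polynomial.map_X]
  rw [← hQ]
  field_simp
  ring

/-- Row CR. -/
theorem cr99 : StCR.{u} := by
  intro D
  refine ⟨((D + 1) * D + ((D + 1) * D + 2 * D)) * ((D + 2) * D) + (D + 1) * D, ?_⟩
  intro F _ m a b P i κ j ha hb hb0 hPD hP hd hκ hj
  rw [natDegree_tp] at hd
  obtain ⟨u, w, hw, hu, hw', h⟩ := cr_core D a b P i κ j ha hb hb0 hPD hP hd hκ hj
  have hinj : Function.Injective (algebraMap (MvPolynomial (Fin m) F) (KK F m)) :=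
    IsFractionRing.injective _ _
  refine ⟨u, w, hw, hu, hw', ?_, ?_⟩
  · have h1 := (h (algebraMap (MvPolynomial (Fin m) F) (KK F m)) (by simpa using hw)).2.2
    rw [map_div₀, tau_algebraMap, tau_algebraMap]
    exact h1
  · intro φ hφ
    have h1 := h ((algebraMap (MvPolynomial (Fin m) F) (KK F m)).comp φ) (by simpa using hφ)
    exact h1

end Pool.Agent.Lib.MP_64d474_lc.SF
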