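import Mathlib
import Pool.Agent.Lib.MP_64d474_lc.AK.Defs
import Pool.Agent.Lib.MP_64d474_lc.GF.SF1_99
import Pool.Agent.Lib.MP_64d474_lc.GF.Defs66

set_option autoImplicit false

/-!
# Sums of arbitrarily many fractions of low degree in characteristic `p`: definitions, rows
-/

namespace Pool.Agent.Lib.MP_64d474_lc.SF

open Polynomial

universe u

/-- the rational functions -/
abbrev KK (F : Type u) [Field F] (m : ℕ) : Type u := FractionRing (MvPolynomial (Fin m) F)

section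

variable {F : Type u} [Field F] {m : ℕ}

/-- `a ↦ a(φ(x) + X e_i)`, with coefficients in the field of rational functions -/
noncomputable def sp (i : Fin m) (φ : MvPolynomial (Fin m) F →+* MvPolynomial (Fin m) F) :
    MvPolynomial (Fin m) F →+* (KK F m)[X] :=
  (Polynomial.mapRingHom ((algebraMap (MvPolynomial (Fin m) F) (KK F m)).comp φ)).comp
    (AK.sh (Pi.single i (1 : F)) : MvPolynomial (Fin m) F →ₐ[F] (MvPolynomial (Fin m) F)[X])

/-- `a ↦ a(x + X e_i)` -/
noncomputable def tp (i : Fin m) : MvPolynomial (Fin m) F →+* (KK F m)[X] :=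
  sp i (RingHom.id _)

theorem tp_eval_zero (i : Fin m) (a : MvPolynomial (Fin m) F) :
    (tp i a).eval 0 = algebraMap _ (KK F m) a := by
  have h : ((AK.sh (Pi.single i (1 : F)) : MvPolynomial (Fin m) F →ₐ[F] _) a).eval 0 = a := by
    induction a using MvPolynomial.induction_on with
    | C c => rw [AK.sh, MvPolynomial.aeval_C]; simp [Polynomial.algebraMap_apply]
    | add a b ha hb => rw [map_add, eval_add, ha, hb]
    | mul_X a j ha => rw [map_mul, eval_mul, ha, AK.sh, MvPolynomial.aeval_X]; simp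
  rw [tp, sp, RingHom.comp_apply, coe_mapRingHom, RingHom.comp_id]
  have h2 := Polynomial.eval_map_apply (f := algebraMap (MvPolynomial (Fin m) F) (KK F m))
    (p := (AK.sh (Pi.single i (1 : F)) : MvPolynomial (Fin m) F →ₐ[F] _) a) 0
  rw [map_zero, h] at h2
  exact h2

theorem tp_injective (i : Fin m) :
    Function.Injective (tp i : MvPolynomial (Fin m) F →+* (KK F m)[X]) := by
  rw [injective_iff_map_eq_zero]
  intro a ha
  have h := tp_eval_zero i a
  rw [ha, eval_zero] at h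
  exact IsFractionRing.injective (MvPolynomial (Fin m) F) (KK F m) (by rw [← h, map_zero])

/-- `t ↦ t(x + X e_i)` for rational functions -/
noncomputable def tau (i : Fin m) : KK F m →+* FractionRing (KK F m)[X] :=
  IsFractionRing.lift (A := MvPolynomial (Fin m) F)
    (g := (algebraMap (KK F m)[X] (FractionRing (KK F m)[X])).comp (tp i))
    ((IsFractionRing.injective (KK F m)[X] (FractionRing (KK F m)[X])).comp (tp_injective i))

theorem tau_algebraMap (i : Fin m) (a : MvPolynomial (Fin m) F) :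
    tau i (algebraMap _ (KK F m) a) = algebraMap _ (FractionRing (KK F m)[X]) (tp i a) :=
  IsFractionRing.lift_algebraMap _ a

/-- the class `E c` -/
def EE (p c : ℕ) (t : KK F m) : Prop :=
  ∃ C : ℕ, ∀ n : ℕ, t ∈ AddSubgroup.closure {x : KK F m | ∃ (G : MvPolynomial (Fin m) F)
    (h : KK F m), G.totalDegree + (p ^ n - 1) ≤ c * (p ^ n - 1) + C ∧
      x = algebraMap _ (KK F m) G * h ^ p ^ n}

end

/-- Row CL0. -/
def StCL0 : Prop :=
  ∀ (F : Type u) [Field F] (p : ℕ) [Fact p.Prime] (m : ℕ) (t : KK F m), EE p 0 t → t = 0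

/-- Row CL1. -/
def StCL1 : Prop :=
  ∀ (F : Type u) [Field F] (p : ℕ) [Fact p.Prime] (m c : ℕ) (a b : MvPolynomial (Fin m) F),
    b ≠ 0 → b.totalDegree ≤ c → EE p (c + 1) (algebraMap _ (KK F m) a / algebraMap _ (KK F m) b)

/-- Row CL2. -/
def StCL2 : Prop :=
  ∀ (F : Type u) [Field F] (p : ℕ) [Fact p.Prime] [CharP F p] (m c : ℕ) (t : KK F m),
    EE p (c + 1) t → ∀ (i : Fin m) (P : MvPolynomial (Fin m) F), 0 < (tp i P).natDegree →
    ∀ (κ j : ℕ) (r : KK F m),
      GF.IsRes (tp i P) (algebraMap _ (FractionRing (KK F m)[X]) (tp i P ^ κ * X ^ j) * tau i t) r →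
      EE p c r

/-- Row CR: bounded degree and specialisation of the residues. -/
def StCR : Prop :=
  ∀ D : ℕ, ∃ D' : ℕ, ∀ (F : Type u) [Field F] (m : ℕ) (a b P : MvPolynomial (Fin m) F)
    (i : Fin m) (κ j : ℕ), a.totalDegree ≤ D → b.totalDegree ≤ D → b ≠ 0 → P.totalDegree ≤ D →
    Irreducible P → 0 < (tp i P).natDegree → κ ≤ D → j ≤ D →
    ∃ u w : MvPolynomial (Fin m) F, w ≠ 0 ∧ u.totalDegree ≤ D' ∧ w.totalDegree ≤ D' ∧
      GF.IsRes (tp i P) (algebraMap _ (FractionRing (KK F m)[X]) (tp i P ^ κ * X ^ j) *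
        tau i (algebraMap _ (KK F m) a / algebraMap _ (KK F m) b))
        (algebraMap _ (KK F m) u / algebraMap _ (KK F m) w) ∧
      ∀ φ : MvPolynomial (Fin m) F →+* MvPolynomial (Fin m) F, φ w ≠ 0 →
        sp i φ b ≠ 0 ∧ sp i φ P ≠ 0 ∧
        GF.IsRes (sp i φ P) (algebraMap _ (FractionRing (KK F m)[X]) (sp i φ P ^ κ * X ^ j) *
          (algebraMap _ (FractionRing (KK F m)[X]) (sp i φ a) /
            algebraMap _ (FractionRing (KK F m)[X]) (sp i φ b)))
          (algebraMap _ (KK F m) (φ u) / algebraMap _ (KK F m) (φ w))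

/-- Row PD: pole detection. -/
def StPD : Prop :=
  ∀ (F : Type u) [Field F] (m N D : ℕ) (a b : Fin N → MvPolynomial (Fin m) F),
    (∀ j, (a j).totalDegree ≤ D ∧ (b j).totalDegree ≤ D ∧ b j ≠ 0) →
    ∑ j, algebraMap _ (KK F m) (a j) / algebraMap _ (KK F m) (b j) ≠ 0 →
    (∃ G : MvPolynomial (Fin m) F, G.totalDegree ≤ D ∧
      ∑ j, algebraMap _ (KK F m) (a j) / algebraMap _ (KK F m) (b j) = algebraMap _ (KK F m) G) ∨
    ∃ (P : MvPolynomial (Fin m) F) (i : Fin m) (κ j : ℕ) (r : KK F m), Irreducible P ∧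
      P.totalDegree ≤ D ∧ 0 < (tp i P).natDegree ∧ κ ≤ D ∧ j ≤ D ∧ r ≠ 0 ∧
      GF.IsRes (tp i P) (algebraMap _ (FractionRing (KK F m)[X]) (tp i P ^ κ * X ^ j) *
        tau i (∑ j, algebraMap _ (KK F m) (a j) / algebraMap _ (KK F m) (b j))) r

/-- Row AS: the restriction theorem. -/
def StAS : Prop :=
  ∀ e D : ℕ, ∃ D' : ℕ, ∀ (F : Type u) [Field F] (p : ℕ) [Fact p.Prime] [CharP F p] (m N : ℕ)
    (a b : Fin N → MvPolynomial (Fin m) F),
    (∀ j, (a j).totalDegree ≤ D ∧ (b j).totalDegree ≤ D ∧ b j ≠ 0) →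
    (∀ j, EE p (e + 1) (algebraMap _ (KK F m) (a j) / algebraMap _ (KK F m) (b j))) →
    ∑ j, algebraMap _ (KK F m) (a j) / algebraMap _ (KK F m) (b j) ≠ 0 →
    ∃ I : Finset (Fin m), I.card ≤ e ∧ ∃ BB : Finset (MvPolynomial (Fin m) F),
      (∀ g ∈ BB, g ≠ 0 ∧ g.totalDegree ≤ D') ∧
      ∀ o : Fin m → F, (∀ g ∈ BB, MvPolynomial.eval o g ≠ 0) →
        AK.res I o (∑ j, a j * ∏ l ∈ Finset.univ.erase j, b l) ≠ 0

/-- HIT in characteristic `p`. -/
def StHITp : Prop :=
  ∀ d t : ℕ, ∃ D : ℕ, ∀ (F : Type u) [Field F] [Infinite F] (p : ℕ) [Fact p.Prime] [CharP F p]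
    (m : ℕ), m < p → ∀ f : MvPolynomial (Fin m) F, GF.Mixed d t f → f ≠ 0 → S3.gen F m D f ≠ 0

end Pool.Agent.Lib.MP_64d474_lc.SF
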