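import Pool.Agent.Lib.MP_64d474_lc.GF.TR88
import Pool.Agent.Lib.MP_64d474_lc.SF.Defs46
import Pool.Agent.Lib.MP_64d474_lc.GF.SF1_99
import Pool.Agent.Lib.MP_64d474_lc.AK.R2
import Pool.Agent.Lib.MP_64d474_lc.AK.Sparse48

set_option autoImplicit false

/-!
# Row PD: detection of a pole
-/

namespace Pool.Agent.Lib.MP_64d474_lc.GF

open Polynomial

universe u

/-- `a(x + X u)` with coefficients in the fraction field. -/
noncomputable def shK88 {F : Type u} [Field F] {m : ℕ} (u : Fin m → F)
    (a : MvPolynomial (Fin m) F) : (FractionRing (MvPolynomial (Fin m) F))[X] :=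
  (AK.sh u a).map (algebraMap _ (FractionRing (MvPolynomial (Fin m) F)))

theorem shK_mul88 {F : Type u} [Field F] {m : ℕ} (u : Fin m → F) (a b : MvPolynomial (Fin m) F) :
    shK88 u (a * b) = shK88 u a * shK88 u b := by
  rw [shK88, map_mul, Polynomial.map_mul]
  rfl

theorem shK_pow88 {F : Type u} [Field F] {m : ℕ} (u : Fin m → F) (a : MvPolynomial (Fin m) F)
    (n : ℕ) : shK88 u (a ^ n) = shK88 u a ^ n := by
  rw [shK88, map_pow, Polynomial.map_pow]
  rfl

/-- the degree in the direction of a coordinate -/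
theorem natDegree_sh88 {F : Type u} [Field F] {m : ℕ} (i : Fin m) (b : MvPolynomial (Fin m) F)
    (hb : 0 < b.degreeOf i) :
    (shK88 (Pi.single i 1) b).natDegree = b.degreeOf i := by
  classical
  rw [shK88, natDegree_map_eq_of_injective (IsFractionRing.injective _ _)]
  refine le_antisymm (AK.sh_natDegree_degreeOf i b) (le_natDegree_of_ne_zero ?_)
  obtain ⟨m0, hm0, hm0i⟩ : ∃ m0 ∈ b.support, m0 i = b.degreeOf i := by
    rw [MvPolynomial.degreeOf_eq_sup] at hb ⊢
    obtain ⟨m0, h1, h2⟩ := Finset.exists_mem_eq_sup b.support (by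
      by_contra hcon
      rw [Finset.not_nonempty_iff_eq_empty] at hcon
      rw [hcon] at hb
      simp at hb) (fun m => m i)
    exact ⟨m0, h1, h2.symm⟩
  intro h0
  have h1 := congrArg (MvPolynomial.coeff (m0 - Finsupp.single i (b.degreeOf i))) h0
  rw [AK.sh_coeff48, MvPolynomial.coeff_sum, MvPolynomial.coeff_zero,
    Finset.sum_eq_single_of_mem m0 hm0] at h1
  · rw [MvPolynomial.coeff_monomial, if_pos rfl, hm0i, Nat.choose_self, Nat.cast_one, mul_one] at h1
    exact (MvPolynomial.mem_support_iff.1 hm0) h1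
  · intro m' hm' hne
    rw [MvPolynomial.coeff_monomial]
    split_ifs with h2
    · rcases lt_or_ge (m' i) (b.degreeOf i) with h3 | h3
      · rw [Nat.choose_eq_zero_of_lt h3, Nat.cast_zero, mul_zero]
      · exfalso
        apply hne
        ext k
        have h4 := DFunLike.congr_fun h2 k
        rw [Finsupp.tsub_apply, Finsupp.tsub_apply] at h4
        by_cases hk : k = i
        · subst hk
          have h5 := MvPolynomial.monomial_le_degreeOf k hm'
          omega
        · rw [Finsupp.single_eq_of_ne hk] at h4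
          simpa using h4
    · rfl

/-- Coprimality in a direction. -/
theorem cop88 {F : Type u} [Field F] {m : ℕ} (u : Fin m → F) {P b : MvPolynomial (Fin m) F}
    (hP : Irreducible P) (hb : ¬ P ∣ b) : IsCoprime (shK88 u b) (shK88 u P) := by
  have h1 : IsRelPrime (AK.sh u P) (AK.sh u b) :=
    AK.isRelPrime_sh2 u ((hP.isRelPrime_iff_not_dvd).2 hb)
  refine (Polynomial.isCoprime_iff_aeval_ne_zero_of_isAlgClosed
    (FractionRing (MvPolynomial (Fin m) F))
    (AlgebraicClosure (FractionRing (MvPolynomial (Fin m) F))) (shK88 u b) (shK88 u P)).2 ?_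
  intro τ
  by_contra hcon
  push Not at hcon
  refine S3.no_root2 ((algebraMap (FractionRing (MvPolynomial (Fin m) F))
    (AlgebraicClosure (FractionRing (MvPolynomial (Fin m) F)))).comp
    (algebraMap (MvPolynomial (Fin m) F) (FractionRing (MvPolynomial (Fin m) F)))) ?_ h1 τ ?_ ?_
  · exact (algebraMap (FractionRing (MvPolynomial (Fin m) F))
      (AlgebraicClosure (FractionRing (MvPolynomial (Fin m) F)))).injective.comp
      (IsFractionRing.injective (MvPolynomial (Fin m) F) (FractionRing (MvPolynomial (Fin m) F)))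
  · have := hcon.2
    rw [shK88, aeval_def, eval₂_map] at this
    exact this
  · have := hcon.1
    rw [shK88, aeval_def, eval₂_map] at this
    exact this

section reg
variable {R K : Type u} [CommRing R] [IsDomain R] [Field K] [Algebra R K] [IsFractionRing R K]

/-- Regular at the prime `P`. -/
def Reg88 (P : R) (t : K) : Prop := ∃ c e : R, ¬ P ∣ e ∧ t = algebraMap R K c / algebraMap R K e

omit [IsDomain R] in
theorem reg_ne88 {P e : R} (h : ¬ P ∣ e) : algebraMap R K e ≠ 0 := by
  intro h0
  apply h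
  rw [(IsFractionRing.to_map_eq_zero_iff (K := K)).1 h0]
  exact dvd_zero P

omit [IsDomain R] in
theorem Reg88.add {P : R} (hP : Prime P) {s t : K} (hs : Reg88 P s) (ht : Reg88 P t) :
    Reg88 P (s + t) := by
  obtain ⟨c, e, he, rfl⟩ := hs
  obtain ⟨c', e', he', rfl⟩ := ht
  refine ⟨c * e' + e * c', e * e', fun h => ?_, ?_⟩
  · rcases hP.dvd_or_dvd h with h1 | h1
    · exact he h1
    · exact he' h1
  · rw [div_add_div _ _ (reg_ne88 he) (reg_ne88 he')]
    simp only [map_add, map_mul]

omit [IsDomain R] in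
theorem Reg88.zero {P : R} (hP : Prime P) : Reg88 P (0 : K) :=
  ⟨0, 1, fun h => hP.not_isUnit (isUnit_of_dvd_one h), by simp⟩

omit [IsDomain R] in
theorem Reg88.sum {P : R} (hP : Prime P) (L : List K) (h : ∀ t ∈ L, Reg88 P t) :
    Reg88 P L.sum := by
  induction L with
  | nil => exact Reg88.zero hP
  | cons t L ih =>
    rw [List.sum_cons]
    exact (h t (by simp)).add hP (ih fun s hs => h s (List.mem_cons_of_mem _ hs))

/-- the order of the pole -/
theorem ord88 {P a b : R} (hP : Prime P) (ha : ¬ P ∣ a) (hb : ¬ P ∣ b) {o k : ℕ}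
    (h : Reg88 P (algebraMap R K P ^ k * (algebraMap R K a / algebraMap R K (P ^ o * b)))) :
    o ≤ k := by
  obtain ⟨c, e, he, h1⟩ := h
  by_contra hcon
  have hP0 : algebraMap R K P ≠ 0 := fun h0 =>
    hP.ne_zero ((IsFractionRing.to_map_eq_zero_iff (K := K)).1 h0)
  have hb0 := reg_ne88 (K := K) hb
  have he0 := reg_ne88 (K := K) he
  obtain ⟨j, rfl⟩ : ∃ j, o = k + 1 + j := ⟨o - (k + 1), by omega⟩
  have h2 : a * e = P * (P ^ j * b * c) := by
    apply IsFractionRing.injective R K
    simp only [map_mul, map_pow] at h1 ⊢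
    rw [pow_add, pow_add] at h1
    field_simp at h1
    linear_combination h1
  rcases hP.dvd_or_dvd (Dvd.intro _ h2.symm) with h3 | h3
  · exact ha h3
  · exact he h3

end reg

theorem totalDegree_pow88 {F : Type u} [Field F] {m : ℕ} {P : MvPolynomial (Fin m) F}
    (hP : P ≠ 0) (n : ℕ) : (P ^ n).totalDegree = n * P.totalDegree := by
  induction n with
  | zero => simp
  | succ n ih =>
    rw [pow_succ, MvPolynomial.totalDegree_mul_of_isDomain (pow_ne_zero _ hP) hP, ih, add_mul,
      one_mul]

/-- degree of a polynomial which is a sum of fractions -/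
theorem num_deg88 {F : Type u} [Field F] {m D : ℕ}
    (L : List (MvPolynomial (Fin m) F × MvPolynomial (Fin m) F))
    (hL : ∀ x ∈ L, x.1.totalDegree ≤ D ∧ x.2.totalDegree ≤ D ∧ x.2 ≠ 0) :
    (L.map Prod.snd).prod ≠ 0 ∧ (num88 L).totalDegree ≤ D + (L.map Prod.snd).prod.totalDegree := by
  induction L with
  | nil => simp [num88]
  | cons x L ih =>
    obtain ⟨h1, h2⟩ := ih fun y hy => hL y (List.mem_cons_of_mem _ hy)
    obtain ⟨h3, h4, h5⟩ := hL x (by simp)
    rw [List.map_cons, List.prod_cons]
    refine ⟨mul_ne_zero h5 h1, ?_⟩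
    rw [MvPolynomial.totalDegree_mul_of_isDomain h5 h1, num88]
    refine (MvPolynomial.totalDegree_add _ _).trans (max_le ?_ ?_)
    · refine (MvPolynomial.totalDegree_mul _ _).trans ?_
      omega
    · refine (MvPolynomial.totalDegree_mul _ _).trans ?_
      omega

/-- Pole detection. -/
theorem pd88 {F : Type u} [Field F] {m D : ℕ}
    (Ls : List (MvPolynomial (Fin m) F × MvPolynomial (Fin m) F))
    (hL : ∀ x ∈ Ls, x.1.totalDegree ≤ D ∧ x.2.totalDegree ≤ D ∧ x.2 ≠ 0)
    (φ : FractionRing (MvPolynomial (Fin m) F))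
    (hφ : φ = (Ls.map fun x => algebraMap _ (FractionRing (MvPolynomial (Fin m) F)) x.1 /
        algebraMap _ (FractionRing (MvPolynomial (Fin m) F)) x.2).sum) :
    (∃ G : MvPolynomial (Fin m) F, G.totalDegree ≤ D ∧ φ = algebraMap _ _ G) ∨
    ∃ (i : Fin m) (P : MvPolynomial (Fin m) F), Irreducible P ∧ (∃ x ∈ Ls, P ∣ x.2) ∧
      0 < P.degreeOf i ∧
      ∀ (L : Type u) [Field L] [Algebra (FractionRing (MvPolynomial (Fin m) F))[X] L]
        [IsFractionRing (FractionRing (MvPolynomial (Fin m) F))[X] L]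
        (θ : FractionRing (MvPolynomial (Fin m) F) →+* L),
        (∀ a : MvPolynomial (Fin m) F, θ (algebraMap _ _ a) =
          algebraMap _ L (shK88 (Pi.single i 1) a)) →
        ∃ κ < D, ∃ j < (shK88 (Pi.single i 1) P).natDegree, ∃ r, r ≠ 0 ∧
          IsRes (shK88 (Pi.single i 1) P)
            (algebraMap _ L (shK88 (Pi.single i 1) P ^ κ * X ^ j) * θ φ) r := by
  classical
  have hinj : Function.Injective (algebraMap (MvPolynomial (Fin m) F)
    (FractionRing (MvPolynomial (Fin m) F))) := IsFractionRing.injective _ _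
  obtain ⟨hprod, hnum⟩ := num_deg88 Ls hL
  have hsum := num_sum88 hinj Ls (fun x hx => (hL x hx).2.2)
  have hprodK : algebraMap (MvPolynomial (Fin m) F) (FractionRing (MvPolynomial (Fin m) F))
      (Ls.map Prod.snd).prod ≠ 0 := fun h0 =>
    hprod (hinj (by rw [h0, map_zero]))
  set a := IsFractionRing.num (MvPolynomial (Fin m) F) φ with ha
  set b : MvPolynomial (Fin m) F :=
    (IsFractionRing.den (MvPolynomial (Fin m) F) φ : nonZeroDivisors (MvPolynomial (Fin m) F)).1
    with hb
  have hab : algebraMap _ _ a / algebraMap _ _ b = φ := IsFractionRing.mk'_num_den' _ φ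
  have hrel : IsRelPrime a b := IsFractionRing.num_den_reduced _ φ
  have hb0 : b ≠ 0 := nonZeroDivisors.ne_zero (IsFractionRing.den _ φ).2
  by_cases hunit : IsUnit b
  · left
    obtain ⟨G, hG⟩ := IsFractionRing.isInteger_of_isUnit_den hunit
    refine ⟨G, ?_, hG.symm⟩
    by_cases hG0 : G = 0
    · rw [hG0, MvPolynomial.totalDegree_zero]
      exact Nat.zero_le _
    · have h1 : G * (Ls.map Prod.snd).prod = num88 Ls := by
        apply hinj
        rw [map_mul, hG, hφ, hsum, div_mul_cancel₀ _ hprodK]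
      have h2 := hnum
      rw [← h1, MvPolynomial.totalDegree_mul_of_isDomain hG0 hprod] at h2
      omega
  · right
    obtain ⟨P, hP, hPb⟩ := WfDvdMonoid.exists_irreducible_factor hunit hb0
    have hPp : Prime P := hP.prime
    have hPa : ¬ P ∣ a := fun h => hP.not_isUnit (hrel h hPb)
    obtain ⟨b', hb', hbo⟩ := (FiniteMultiplicity.of_prime_left hPp hb0).exists_eq_pow_mul_and_not_dvd
    generalize multiplicity P b = o at hb'
    have ho : 1 ≤ o := by
      by_contra hcon
      have : o = 0 := by omega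
      rw [this, pow_zero, one_mul] at hb'
      exact hbo (hb' ▸ hPb)
    have hform : φ = algebraMap _ _ a / algebraMap _ _ (P ^ o * b') := by
      rw [← hab, hb']
    have hPex : ∃ x ∈ Ls, P ∣ x.2 := by
      by_contra hcon
      push Not at hcon
      have h1 : Reg88 P φ := by
        rw [hφ]
        apply Reg88.sum hPp
        intro t ht
        obtain ⟨x, hx, rfl⟩ := List.mem_map.1 ht
        exact ⟨x.1, x.2, hcon x hx, rfl⟩
      have h2 := ord88 (K := FractionRing (MvPolynomial (Fin m) F)) (k := 0) hPp hPa hbo (by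
        rw [pow_zero, one_mul, ← hform]
        exact h1)
      omega
    have hPD : 1 ≤ P.totalDegree := by
      by_contra hcon
      have h0 : P.totalDegree = 0 := by omega
      rw [MvPolynomial.totalDegree_eq_zero_iff_eq_C] at h0
      apply hP.not_isUnit
      rw [h0]
      apply IsUnit.map
      rw [isUnit_iff_ne_zero]
      intro h1
      rw [h1, map_zero] at h0
      exact hP.ne_zero h0
    have hoD : o ≤ D := by
      apply ord88 (K := FractionRing (MvPolynomial (Fin m) F)) (k := D) hPp hPa hbo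
      rw [← hform, hφ, ← List.sum_map_mul_left]
      apply Reg88.sum hPp
      intro t ht
      obtain ⟨x, hx, rfl⟩ := List.mem_map.1 ht
      obtain ⟨bx, hbx, hnd⟩ := (FiniteMultiplicity.of_prime_left hPp
        (hL x hx).2.2).exists_eq_pow_mul_and_not_dvd
      generalize multiplicity P x.2 = ox at hbx
      have hox : ox ≤ D := by
        have h1 := (hL x hx).2.1
        have hbx0 : bx ≠ 0 := by
          rintro rfl
          exact hnd (dvd_zero P)
        rw [hbx, MvPolynomial.totalDegree_mul_of_isDomain (pow_ne_zero _ hP.ne_zero) hbx0,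
          totalDegree_pow88 hP.ne_zero] at h1
        nlinarith
      refine ⟨x.1 * P ^ (D - ox), bx, hnd, ?_⟩
      have hP0 : algebraMap (MvPolynomial (Fin m) F) (FractionRing (MvPolynomial (Fin m) F)) P ≠ 0 :=
        fun h0 => hP.ne_zero (hinj (by rw [h0, map_zero]))
      have hbxK := reg_ne88 (K := FractionRing (MvPolynomial (Fin m) F)) hnd
      obtain ⟨w, rfl⟩ : ∃ w, D = ox + w := ⟨D - ox, by omega⟩
      rw [hbx, Nat.add_sub_cancel_left]
      simp only [map_mul, map_pow]
      rw [pow_add]
      field_simp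
    obtain ⟨i, hi⟩ : ∃ i, 0 < P.degreeOf i := by
      by_contra hcon
      push Not at hcon
      have h0 : P.totalDegree = 0 := by
        rw [MvPolynomial.totalDegree_eq_zero_iff]
        intro e he i
        have h1 := MvPolynomial.monomial_le_degreeOf i he
        have h2 := hcon i
        omega
      omega
    refine ⟨i, P, hP, hPex, hi, ?_⟩
    intro L _ _ _ θ hθ
    set Q := shK88 (Pi.single i 1) P with hQ
    have hQd : 0 < Q.natDegree := by
      rw [hQ, natDegree_sh88 i P hi]
      exact hi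
    have hQ0 : Q ≠ 0 := ne_zero_of_pos hQd
    have hcop : IsCoprime (shK88 (Pi.single i 1) b') Q := cop88 _ hP hbo
    have hcopa : IsCoprime (shK88 (Pi.single i 1) a) Q := cop88 _ hP hPa
    have hsinj : ∀ c : MvPolynomial (Fin m) F, c ≠ 0 → shK88 (Pi.single i 1) c ≠ 0 := by
      intro c hc h0
      have h1 := hθ c
      rw [h0, map_zero] at h1
      exact hc (hinj (by rw [map_zero]; exact (map_eq_zero θ).1 h1))
    have hb'0 : b' ≠ 0 := by
      rintro rfl
      exact hbo (dvd_zero P)
    set B := shK88 (Pi.single i 1) b' with hB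
    set A := shK88 (Pi.single i 1) a with hA
    have hB0 : B ≠ 0 := hsinj b' hb'0
    obtain ⟨α, β, hαβ⟩ := hcop.symm.pow_left (m := o)
    have hQo : Q ^ o ≠ 0 := pow_ne_zero _ hQ0
    have hθφ : θ φ = algebraMap _ L ((A * β) % Q ^ o) / algebraMap _ L Q ^ o +
        algebraMap _ L ((A * β) / Q ^ o * B + A * α) / algebraMap _ L B := by
      have h1 := EuclideanDomain.div_add_mod (A * β) (Q ^ o)
      have hq : algebraMap _ L Q ≠ 0 := algebraMap_ne hQ0
      have hbL : algebraMap _ L B ≠ 0 := algebraMap_ne hB0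
      rw [hform, map_div₀, hθ, hθ, shK_mul88, shK_pow88, ← hA, ← hB, ← hQ]
      have h2 : A = ((A * β) % Q ^ o) * B + ((A * β) / Q ^ o * B + A * α) * Q ^ o := by
        linear_combination (-A) * hαβ - B * h1
      have h3 := congrArg (algebraMap _ L) h2
      rw [map_add, map_mul, map_mul, map_pow] at h3
      rw [div_add_div _ _ (pow_ne_zero _ hq) hbL, map_mul, map_pow]
      congr 1
      rw [h3]
      ring
    have hU0 : (A * β) % Q ^ o ≠ 0 := by
      intro h0
      have h1 : Q ^ o ∣ A * β := EuclideanDomain.mod_eq_zero.1 h0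
      have h2 : Q ∣ A * β := (dvd_pow_self Q (by omega)).trans h1
      have h3 : Q ∣ β := hcopa.symm.dvd_of_dvd_mul_left h2
      have h4 : Q ∣ 1 := by
        rw [← hαβ]
        exact dvd_add ((dvd_pow_self Q (by omega)).mul_left α) (h3.mul_right B)
      have h5 := Polynomial.natDegree_eq_zero_of_isUnit (isUnit_of_dvd_one h4)
      omega
    have hUd : ((A * β) % Q ^ o).degree < ((o * Q.natDegree : ℕ) : WithBot ℕ) := by
      have e7 : (Q ^ o).degree = ((o * Q.natDegree : ℕ) : WithBot ℕ) := by
        rw [Polynomial.degree_eq_natDegree hQo, Polynomial.natDegree_pow]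
      rw [← e7]
      exact EuclideanDomain.mod_lt _ hQo
    obtain ⟨κ, hκ, j, hj, r, hr, hres⟩ := exists_res_ne (L := L)
      (V := (A * β) / Q ^ o * B + A * α) hQd hUd hcop hB0 hU0
    refine ⟨κ, by omega, j, hj, r, hr, ?_⟩
    rw [hθφ]
    exact hres

theorem tp_eq88 {F : Type u} [Field F] {m : ℕ} (i : Fin m) (a : MvPolynomial (Fin m) F) :
    SF.tp i a = shK88 (Pi.single i 1) a := rfl

/-- Row PD. -/
theorem stPD88 : SF.StPD.{u} := by
  intro F _ m N D a b hab _
  have h1 : ∀ x ∈ List.ofFn (fun j => (a j, b j)), x.1.totalDegree ≤ D ∧ x.2.totalDegree ≤ D ∧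
      x.2 ≠ 0 := by
    intro x hx
    obtain ⟨j, rfl⟩ := List.mem_ofFn.1 hx
    exact hab j
  have h2 : ∑ j, algebraMap _ (SF.KK F m) (a j) / algebraMap _ (SF.KK F m) (b j) =
      ((List.ofFn (fun j => (a j, b j))).map fun x => algebraMap _
        (FractionRing (MvPolynomial (Fin m) F)) x.1 /
        algebraMap _ (FractionRing (MvPolynomial (Fin m) F)) x.2).sum := by
    rw [List.map_ofFn, List.sum_ofFn]
    rfl
  rcases pd88 (D := D) _ h1 _ h2 with ⟨G, hG, hG'⟩ | ⟨i, P, hP, ⟨x, hx, hPx⟩, hi, h⟩
  · exact Or.inl ⟨G, hG, hG'⟩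
  · right
    obtain ⟨κ, hκ, j, hj, r, hr, hres⟩ := h (FractionRing (SF.KK F m)[X]) (SF.tau i)
      (fun c => SF.tau_algebraMap i c)
    have hPD : P.totalDegree ≤ D := by
      obtain ⟨y, hy⟩ := hPx
      have h3 := (h1 x hx).2.1
      have hy0 : y ≠ 0 := by
        rintro rfl
        rw [mul_zero] at hy
        exact (h1 x hx).2.2 hy
      rw [hy, MvPolynomial.totalDegree_mul_of_isDomain hP.ne_zero hy0] at h3
      omega
    have hnd : (SF.tp i P).natDegree = P.degreeOf i := natDegree_sh88 i P hi
    refine ⟨P, i, κ, j, r, hP, hPD, ?_, hκ.le, ?_, hr, hres⟩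
    · rw [hnd]
      exact hi
    · have h4 : j < P.degreeOf i := by
        rw [← hnd]
        exact hj
      have h5 := MvPolynomial.degreeOf_le_totalDegree P i
      omega

/-- Row TR with the statement of `SF/Defs46`. -/
theorem stTR88 (h : SF.StHITp.{u}) : StHIT.{u} := tr88 h

end Pool.Agent.Lib.MP_64d474_lc.GF
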