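import Pool.Agent.Lib.MP_64d474_lc.SF.Glue46
import Pool.Agent.Lib.MP_64d474_lc.SF.CR99
import Pool.Agent.Lib.MP_64d474_lc.SF.CL52
import Pool.Agent.Lib.MP_64d474_lc.SF.PD88
import Pool.Agent.Lib.MP_64d474_lc.GF.Fin66
import Pool.Agent.Lib.MP_64d474_lc.GF.X46

/-!
# Sums of arbitrarily many fractions of low degree: closed form of the number of seeds
-/

set_option autoImplicit false

namespace Pool.Agent.Lib.MP_64d474_lc.GF

open MvPolynomial

universe u

/-- the transfer for one triple of numbers -/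
theorem tr99 (d t D : ℕ)
    (hD : ∀ (F : Type u) [Field F] [Infinite F] (p : ℕ) [Fact p.Prime] [CharP F p]
      (m : ℕ), m < p → ∀ f : MvPolynomial (Fin m) F, GF.Mixed d t f → f ≠ 0 → S3.gen F m D f ≠ 0)
    (F : Type u) [Field F] [CharZero F] (m : ℕ) (f : MvPolynomial (Fin m) F)
    (hf : GF.Mixed d t f) (hf0 : f ≠ 0) : S3.gen F m D f ≠ 0 := by
  intro hgen
  obtain ⟨T, hT, L, hL, hid⟩ := (mixed_iff88 f).1 hf
  classical
  let P : Finset (MvPolynomial (Fin m) F) :=
    insert f (T.toFinset ∪ ((L.map Prod.fst).toFinset ∪ (L.map Prod.snd).toFinset))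
  have hfP : f ∈ P := Finset.mem_insert_self _ _
  have hTP : ∀ g ∈ T, g ∈ P := fun g hg => Finset.mem_insert_of_mem
    (Finset.mem_union_left _ (Multiset.mem_toFinset.2 hg))
  have hL1 : ∀ x ∈ L, x.1 ∈ P := fun x hx => Finset.mem_insert_of_mem
    (Finset.mem_union_right _ (Finset.mem_union_left _
      (List.mem_toFinset.2 (List.mem_map.2 ⟨x, hx, rfl⟩))))
  have hL2 : ∀ x ∈ L, x.2 ∈ P := fun x hx => Finset.mem_insert_of_mem
    (Finset.mem_union_right _ (Finset.mem_union_right _
      (List.mem_toFinset.2 (List.mem_map.2 ⟨x, hx, rfl⟩))))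
  have hc : ∀ g : MvPolynomial (Fin m) F, ∃ e : Fin m →₀ ℕ, g ≠ 0 → coeff e g ≠ 0 := by
    intro g
    by_cases hg : g = 0
    · exact ⟨0, fun h => absurd hg h⟩
    · obtain ⟨e, he⟩ := ne_zero_iff.1 hg
      exact ⟨e, fun _ => he⟩
  choose e he using hc
  let S : Finset F := P.biUnion coeffs ∪ (P.image (fun g => (coeff (e g) g)⁻¹) ∪
    {((m.factorial : ℕ) : F)⁻¹})
  let B : Subalgebra ℤ F := Algebra.adjoin ℤ (S : Set F)
  have hSB : ∀ x ∈ S, x ∈ B := fun x hx => Algebra.subset_adjoin hx
  haveI : Algebra.FiniteType ℤ B := by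
    rw [← Subalgebra.fg_iff_finiteType]
    exact ⟨S, rfl⟩
  obtain ⟨κ, i1, i2, p, i3, i4, ⟨ψ⟩⟩ := exists_hom88 B
  let ι : B →+* F := B.val.toRingHom
  have hι : Function.Injective ι := Subtype.val_injective
  have hιr : ∀ x : F, x ∈ Set.range ι ↔ x ∈ B := fun x =>
    ⟨by rintro ⟨y, rfl⟩; exact y.2, fun hx => ⟨⟨x, hx⟩, rfl⟩⟩
  have hlift : ∀ g : MvPolynomial (Fin m) F, ∃ gB : MvPolynomial (Fin m) B, g ∈ P →
      map ι gB = g := by
    intro g
    by_cases hg : g ∈ P
    · have : g ∈ Set.range (map ι) := by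
        rw [mem_range_map_iff_coeffs_subset]
        intro x hx
        rw [hιr]
        exact hSB x (Finset.mem_union_left _ (Finset.mem_biUnion.2 ⟨g, hg, hx⟩))
      obtain ⟨y, hy⟩ := this
      exact ⟨y, fun _ => hy⟩
    · exact ⟨0, fun h => absurd h hg⟩
  choose lift hlift using hlift
  have hmι : Function.Injective (map ι : MvPolynomial (Fin m) B → MvPolynomial (Fin m) F) :=
    map_injective ι hι
  have hunit : ∀ (u : B) (v : F), v ∈ S → ι u * v = 1 → ψ u ≠ 0 := by
    intro u v hv huv h0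
    have h1 : u * ⟨v, hSB v hv⟩ = 1 := hι (by
      rw [map_mul, map_one]
      exact huv)
    have h2 := congrArg ψ h1
    rw [map_mul, h0, zero_mul, map_one] at h2
    exact zero_ne_one h2
  have hred0 : ∀ g ∈ P, g ≠ 0 → map ψ (lift g) ≠ 0 := by
    intro g hg hg0 h0
    have h1 := he g hg0
    have h2 : ι (coeff (e g) (lift g)) = coeff (e g) g := by
      rw [← coeff_map, hlift g hg]
    refine hunit (coeff (e g) (lift g)) (coeff (e g) g)⁻¹ ?_ ?_ ?_
    · exact Finset.mem_union_right _ (Finset.mem_union_left _ (Finset.mem_image_of_mem _ hg))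
    · rw [h2]
      exact mul_inv_cancel₀ h1
    · rw [← coeff_map, h0, coeff_zero]
  have hdeg : ∀ g ∈ P, (map ψ (lift g)).totalDegree ≤ g.totalDegree := by
    intro g hg
    have h1 : (map ψ (lift g)).totalDegree ≤ (lift g).totalDegree :=
      Finset.sup_mono (support_map_subset ψ (lift g))
    have h2 : (map ι (lift g)).totalDegree = (lift g).totalDegree := by
      rw [totalDegree, totalDegree, support_map_of_injective (lift g) hι]
    rw [hlift g hg] at h2
    rw [h2]
    exact h1
  have hpm : m < p := by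
    by_contra hcon
    have h1 : p ∣ m.factorial := (Nat.Prime.dvd_factorial i3.out).2 (not_lt.1 hcon)
    have h2 : ((m.factorial : ℕ) : κ) = 0 := (CharP.cast_eq_zero_iff κ p _).2 h1
    refine hunit ((m.factorial : ℕ) : B) ((m.factorial : ℕ) : F)⁻¹ ?_ ?_ ?_
    · exact Finset.mem_union_right _ (Finset.mem_union_right _ (Finset.mem_singleton_self _))
    · rw [map_natCast]
      exact mul_inv_cancel₀ (Nat.cast_ne_zero.2 (Nat.factorial_ne_zero m))
    · rw [map_natCast, h2]
  -- the identity over `B`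
  have hidB : lift f * ((L.map fun x => (lift x.1, lift x.2)).map Prod.snd).prod =
      (T.map lift).prod * num88 (L.map fun x => (lift x.1, lift x.2)) := by
    apply hmι
    have e1 : (map ι) ((L.map fun x => (lift x.1, lift x.2)).map Prod.snd).prod =
        (L.map Prod.snd).prod := by
      rw [map_list_prod, List.map_map, List.map_map]
      congr 1
      apply List.map_congr_left
      intro x hx
      exact hlift _ (hL2 x hx)
    have e2 : (map ι) (T.map lift).prod = T.prod := by
      rw [map_multiset_prod, Multiset.map_map]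
      congr 1
      conv_rhs => rw [← Multiset.map_id T]
      apply Multiset.map_congr rfl
      intro x hx
      exact hlift _ (hTP x hx)
    have e3 : (map ι) (num88 (L.map fun x => (lift x.1, lift x.2))) = num88 L := by
      rw [← num_map88, List.map_map]
      congr 1
      conv_rhs => rw [← List.map_id L]
      apply List.map_congr_left
      intro x hx
      show (map ι (lift x.1), map ι (lift x.2)) = x
      rw [hlift _ (hL1 x hx), hlift _ (hL2 x hx)]
    rw [map_mul, map_mul, hlift f hfP, e1, e2, e3, hid]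
  have hmix : Mixed d t (map ψ (lift f)) := by
    rw [mixed_iff88]
    refine ⟨T.map fun g => map ψ (lift g), ?_, L.map fun x => (map ψ (lift x.1), map ψ (lift x.2)),
      ?_, ?_⟩
    · intro g hg
      obtain ⟨g', hg', rfl⟩ := Multiset.mem_map.1 hg
      exact ⟨hred0 g' (hTP g' hg') (hT g' hg').1, (hdeg g' (hTP g' hg')).trans (hT g' hg').2⟩
    · intro x hx
      obtain ⟨y, hy, rfl⟩ := List.mem_map.1 hx
      exact ⟨(hdeg _ (hL1 y hy)).trans (hL y hy).1, (hdeg _ (hL2 y hy)).trans (hL y hy).2.1,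
        hred0 _ (hL2 y hy) (hL y hy).2.2⟩
    · have h1 := congrArg (map ψ) hidB
      rw [map_mul, map_mul, map_list_prod, map_multiset_prod, ← num_map88, List.map_map,
        List.map_map, List.map_map, Multiset.map_map] at h1
      rw [List.map_map]
      exact h1
  refine hD κ p m hpm (map ψ (lift f)) hmix (hred0 f hfP hf0) ?_
  rw [gen_eq88, ← gen_map88]
  have h3 : genR88 B m D (lift f) = 0 := by
    apply map_injective ι hι
    rw [gen_map88, hlift f hfP, map_zero, ← gen_eq88]
    exact hgen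
  rw [h3, map_zero]

end Pool.Agent.Lib.MP_64d474_lc.GF

namespace Pool.Agent.Lib.MP_64d474_lc.SF

open Polynomial

universe u

/-- the degree after one step -/
def up (D : ℕ) : ℕ := ((D + 1) * D + ((D + 1) * D + 2 * D)) * ((D + 2) * D) + (D + 1) * D

theorem le_up (D : ℕ) : D ≤ up D := by
  rw [up]
  nlinarith [Nat.zero_le (((D + 1) * D + ((D + 1) * D + 2 * D)) * ((D + 2) * D))]

theorem le_iter (e D : ℕ) : D ≤ up^[e] D := by
  induction e generalizing D with
  | zero => exact le_refl _
  | succ e ih =>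
    rw [Function.iterate_succ_apply]
    exact (le_up D).trans (ih _)

theorem up_add_one_le (D : ℕ) : up D + 1 ≤ 2 * (D + 1) ^ 4 := by
  rw [up]
  nlinarith [Nat.zero_le D, Nat.zero_le (D ^ 2)]

theorem iter_add_one_le (e D : ℕ) : up^[e] D + 1 ≤ (2 * (D + 1)) ^ 4 ^ e := by
  induction e generalizing D with
  | zero =>
    rw [Function.iterate_zero_apply, pow_zero, pow_one]
    omega
  | succ e ih =>
    rw [Function.iterate_succ_apply]
    refine (ih (up D)).trans ?_
    rw [pow_succ' 4 e, pow_mul]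
    apply Nat.pow_le_pow_left
    have h1 := up_add_one_le D
    calc 2 * (up D + 1) ≤ 2 * (2 * (D + 1) ^ 4) := Nat.mul_le_mul_left 2 h1
      _ ≤ (2 * (D + 1)) ^ 4 := by
        rw [mul_pow]
        nlinarith [Nat.zero_le ((D + 1) ^ 4)]

/-- Row CR with its bound. -/
theorem crx99 (D : ℕ) : ∀ (F : Type u) [Field F] (m : ℕ) (a b P : MvPolynomial (Fin m) F)
    (i : Fin m) (κ j : ℕ), a.totalDegree ≤ D → b.totalDegree ≤ D → b ≠ 0 → P.totalDegree ≤ D →
    Irreducible P → 0 < (tp i P).natDegree → κ ≤ D → j ≤ D →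
    ∃ u w : MvPolynomial (Fin m) F, w ≠ 0 ∧ u.totalDegree ≤ up D ∧ w.totalDegree ≤ up D ∧
      GF.IsRes (tp i P) (algebraMap _ (FractionRing (KK F m)[X]) (tp i P ^ κ * X ^ j) *
        tau i (algebraMap _ (KK F m) a / algebraMap _ (KK F m) b))
        (algebraMap _ (KK F m) u / algebraMap _ (KK F m) w) ∧
      ∀ φ : MvPolynomial (Fin m) F →+* MvPolynomial (Fin m) F, φ w ≠ 0 →
        sp i φ b ≠ 0 ∧ sp i φ P ≠ 0 ∧
        GF.IsRes (sp i φ P) (algebraMap _ (FractionRing (KK F m)[X]) (sp i φ P ^ κ * X ^ j) *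
          (algebraMap _ (FractionRing (KK F m)[X]) (sp i φ a) /
            algebraMap _ (FractionRing (KK F m)[X]) (sp i φ b)))
          (algebraMap _ (KK F m) (φ u) / algebraMap _ (KK F m) (φ w)) := by
  intro F _ m a b P i κ j ha hb hb0 hPD hP hd hκ hj
  rw [natDegree_tp] at hd
  obtain ⟨u, w, hw, hu, hw', h⟩ := cr_core D a b P i κ j ha hb hb0 hPD hP hd hκ hj
  have hinj : Function.Injective (algebraMap (MvPolynomial (Fin m) F) (KK F m)) :=
    IsFractionRing.injective _ _
  refine ⟨u, w, hw, hu, hw', ?_, ?_⟩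
  · have h1 := (h (algebraMap (MvPolynomial (Fin m) F) (KK F m)) (by simpa using hw)).2.2
    rw [map_div₀, tau_algebraMap, tau_algebraMap]
    exact h1
  · intro φ hφ
    have h1 := h ((algebraMap (MvPolynomial (Fin m) F) (KK F m)).comp φ) (by simpa using hφ)
    exact h1

/-- the restriction theorem with its bound -/
theorem as99 (e : ℕ) : ∀ D : ℕ, ∀ (F : Type u) [Field F] (p : ℕ) [Fact p.Prime] [CharP F p]
    (m N : ℕ) (a b : Fin N → MvPolynomial (Fin m) F),
    (∀ j, (a j).totalDegree ≤ D ∧ (b j).totalDegree ≤ D ∧ b j ≠ 0) →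
    (∀ j, EE p (e + 1) (algebraMap _ (KK F m) (a j) / algebraMap _ (KK F m) (b j))) →
    ∑ j, algebraMap _ (KK F m) (a j) / algebraMap _ (KK F m) (b j) ≠ 0 →
    ∃ I : Finset (Fin m), I.card ≤ e ∧ ∃ BB : Finset (MvPolynomial (Fin m) F),
      (∀ g ∈ BB, g ≠ 0 ∧ g.totalDegree ≤ up^[e] D) ∧
      ∀ o : Fin m → F, (∀ g ∈ BB, MvPolynomial.eval o g ≠ 0) →
        AK.res I o (∑ j, a j * ∏ l ∈ Finset.univ.erase j, b l) ≠ 0 := by
  classical
  have hCL0 : StCL0.{u} := cl0_52
  have hCL2 : StCL2.{u} := cl2_52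
  have hPD : StPD.{u} := GF.stPD88
  induction e with
  | zero =>
    intro D
    intro F _ p _ _ m N a b hab hEE h0
    rcases hPD F m N D a b hab h0 with ⟨G, hG, hG2⟩ | ⟨P, i, κ, j, r, hP, -, hPi, -, -, hr, hres⟩
    · obtain ⟨BB, h1, h2⟩ := as_poly a b hab h0 G hG hG2
      exact ⟨∅, by simp, BB, h1, h2⟩
    · exfalso
      apply hr
      have hP0 : tp i P ≠ 0 := GF.ne_zero_of_pos hPi
      choose s hs using fun l : Fin N => GF.exists_isRes (L := FractionRing (KK F m)[X]) hPi
        (algebraMap _ (FractionRing (KK F m)[X]) (tp i P ^ κ * X ^ j) *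
          tau i (algebraMap _ (KK F m) (a l) / algebraMap _ (KK F m) (b l)))
      have hs0 : ∀ l, s l = 0 := fun l =>
        hCL0 F p m (s l) (hCL2 F p m 0 _ (hEE l) i P hPi κ j (s l) (hs l))
      have h1 := GF.IsRes.sum hP0 Finset.univ fun l _ => hs l
      rw [← Finset.mul_sum, ← map_sum] at h1
      rw [GF.IsRes.unique hP0 hres h1]
      exact Finset.sum_eq_zero fun l _ => hs0 l
  | succ e ih =>
    intro D
    obtain hD₁ := crx99.{u} D
    obtain hD₂ := ih (up D)
    rw [Function.iterate_succ_apply]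
    intro F _ p _ _ m N a b hab hEE h0
    have hinj := IsFractionRing.injective (MvPolynomial (Fin m) F) (KK F m)
    rcases hPD F m N D a b hab h0 with ⟨G, hG, hG2⟩ | ⟨P, i, κ, j, r, hP, hPD', hPi, hκ, hj, hr,
      hres⟩
    · obtain ⟨BB, h1, h2⟩ := as_poly a b hab h0 G hG hG2
      exact ⟨∅, by simp, BB, fun g hg => ⟨(h1 g hg).1, (h1 g hg).2.trans
        ((le_up D).trans (le_iter e _))⟩, h2⟩
    · have hP0 : tp i P ≠ 0 := GF.ne_zero_of_pos hPi
      choose u w hw hu hwd hs hφ using fun l : Fin N => hD₁ F m (a l) (b l) P i κ j (hab l).1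
        (hab l).2.1 (hab l).2.2 hPD' hP hPi hκ hj
      have hsum : ∑ l, algebraMap _ (KK F m) (u l) / algebraMap _ (KK F m) (w l) = r := by
        have h1 := GF.IsRes.sum hP0 Finset.univ fun l _ => hs l
        rw [← Finset.mul_sum, ← map_sum] at h1
        exact GF.IsRes.unique hP0 h1 hres
      obtain ⟨I₁, hI₁, BB₁, hBB₁, hgood⟩ := hD₂ F p m N u w (fun l => ⟨hu l, hwd l, hw l⟩)
        (fun l => hCL2 F p m (e + 1) _ (hEE l) i P hPi κ j _ (hs l)) (by rw [hsum]; exact hr)
      refine ⟨insert i I₁, (Finset.card_insert_le _ _).trans (by omega),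
        BB₁ ∪ Finset.univ.image w, ?_, ?_⟩
      · intro g hg
        rw [Finset.mem_union] at hg
        rcases hg with hg | hg
        · exact hBB₁ g hg
        · obtain ⟨l, -, rfl⟩ := Finset.mem_image.1 hg
          exact ⟨hw l, (hwd l).trans (le_iter e _)⟩
      · intro o ho hzero
        set φ : MvPolynomial (Fin m) F →+* MvPolynomial (Fin m) F :=
          ((AK.res I₁ o : MvPolynomial (Fin m) F →ₐ[F] MvPolynomial (Fin m) F) :
            MvPolynomial (Fin m) F →+* MvPolynomial (Fin m) F) with hφdef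
        have hφw : ∀ l, φ (w l) ≠ 0 := fun l => res_ne_zero_of_eval
          (ho _ (Finset.mem_union_right _ (Finset.mem_image_of_mem _ (Finset.mem_univ l))))
        have h1 := hgood o fun g hg => ho g (Finset.mem_union_left _ hg)
        -- the residue after specialisation is nonzero
        have h2 : ∑ l, algebraMap _ (KK F m) (φ (u l)) / algebraMap _ (KK F m) (φ (w l)) ≠ 0 := by
          intro h3
          apply h1
          have h4 := sum_div_mul_prod ((algebraMap _ (KK F m)).comp φ) u w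
            (fun l => (map_ne_zero_iff _ hinj).2 (hφw l))
          simp only [RingHom.comp_apply] at h4
          rw [h3, zero_mul] at h4
          exact hinj (by rw [map_zero]; exact h4.symm)
        -- the residue of zero
        apply h2
        have hspP : sp i φ P ≠ 0 ∨ N = 0 := by
          rcases Nat.eq_zero_or_pos N with hN | hN
          · exact Or.inr hN
          · exact Or.inl (hφ ⟨0, hN⟩ φ (hφw _)).2.1
        rcases hspP with hspP | hN
        · have h3 := GF.IsRes.sum hspP Finset.univ fun l _ => (hφ l φ (hφw l)).2.2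
          rw [← Finset.mul_sum] at h3
          have h4 := sum_div_mul_prod
            ((algebraMap (KK F m)[X] (FractionRing (KK F m)[X])).comp (sp i φ)) a b
            (fun l => (map_ne_zero_iff _ (IsFractionRing.injective _ _)).2 (hφ l φ (hφw l)).1)
          simp only [RingHom.comp_apply] at h4
          have h5 : sp i φ (∑ l, a l * ∏ l' ∈ Finset.univ.erase l, b l') = 0 :=
            sp_eq_zero I₁ i o hzero
          rw [h5, map_zero, mul_eq_zero] at h4
          rcases h4 with h4 | h4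
          · rw [h4, mul_zero] at h3
            exact GF.IsRes.unique hspP h3 (GF.IsRes.zero _)
          · exfalso
            obtain ⟨l, -, hl⟩ := Finset.prod_eq_zero_iff.1 h4
            exact (map_ne_zero_iff _ (IsFractionRing.injective _ _)).2 (hφ l φ (hφw l)).1 hl
        · subst hN
          simp

/-- the core with its bound -/
theorem core99 (d t : ℕ) (F : Type u) [Field F] [Infinite F] (p : ℕ) [Fact p.Prime] [CharP F p]
    (m : ℕ) (f : MvPolynomial (Fin m) F) (hf : GF.Mixed d t f) (hf0 : f ≠ 0) :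
    ∃ I : Finset (Fin m), I.card ≤ t ∧ ∃ BB : Finset (MvPolynomial (Fin m) F),
      (∀ b ∈ BB, b ≠ 0 ∧ b.totalDegree ≤ max d (up^[t] t)) ∧
      ∀ o : Fin m → F, (∀ b ∈ BB, MvPolynomial.eval o b ≠ 0) → AK.res I o f ≠ 0 := by
  classical
  obtain ⟨T, hT, φ, hφ, hfφ⟩ := hf
  obtain ⟨N, a, b, hab, rfl⟩ := exists_fin46 hφ
  have hinj := IsFractionRing.injective (MvPolynomial (Fin m) F) (KK F m)
  have h0 : ∑ j, algebraMap _ (KK F m) (a j) / algebraMap _ (KK F m) (b j) ≠ 0 := by
    intro h0
    rw [h0, mul_zero] at hfφ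
    exact hf0 (hinj (by rw [map_zero]; exact hfφ))
  obtain ⟨I, hI, BB, hBB, hgood⟩ := as99 t t F p m N a b hab
    (fun j => cl1_52 F p m t (a j) (b j) (hab j).2.2 (hab j).2.1) h0
  refine ⟨I, hI, BB ∪ (T.toFinset ∪ Finset.univ.image b), ?_, ?_⟩
  · intro g hg
    rw [Finset.mem_union, Finset.mem_union] at hg
    rcases hg with hg | hg | hg
    · exact ⟨(hBB g hg).1, (hBB g hg).2.trans (le_max_right _ _)⟩
    · rw [Multiset.mem_toFinset] at hg
      exact ⟨(hT g hg).1, (hT g hg).2.trans (le_max_left _ _)⟩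
    · obtain ⟨j, -, rfl⟩ := Finset.mem_image.1 hg
      exact ⟨(hab j).2.2, (hab j).2.1.trans ((le_iter t t).trans (le_max_right _ _))⟩
  · intro o ho hzero
    have h1 := hgood o fun g hg => ho g (Finset.mem_union_left _ hg)
    have h2 : f * ∏ l, b l = T.prod * ∑ j, a j * ∏ l ∈ Finset.univ.erase j, b l := by
      apply hinj
      rw [map_mul, hfφ, map_mul, ← sum_div_mul_prod (algebraMap _ (KK F m)) a b
        (fun l => (map_ne_zero_iff _ hinj).2 (hab l).2.2), map_prod, mul_assoc]
    have h3 := congrArg (AK.res I o) h2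
    rw [map_mul, hzero, zero_mul, map_mul] at h3
    rcases mul_eq_zero.1 h3.symm with h4 | h4
    · rw [map_multiset_prod, Multiset.prod_eq_zero_iff, Multiset.mem_map] at h4
      obtain ⟨g, hg, hg0⟩ := h4
      refine res_ne_zero_of_eval (ho g ?_) hg0
      exact Finset.mem_union_right _ (Finset.mem_union_left _ (Multiset.mem_toFinset.2 hg))
    · exact h1 h4

/-- HIT with its bound -/
theorem hit99 (d t D : ℕ) (hD : max d (up^[t] t) ≤ D) (F : Type u) [Field F] [CharZero F] (m : ℕ)
    (f : MvPolynomial (Fin m) F)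
    (hf : GF.Mixed d t f) (hf0 : f ≠ 0) : S3.gen F m (D + t) f ≠ 0 := by
  refine GF.tr99 d t _ ?_ F m f hf hf0
  intro F _ _ p _ _ m hm f hf hf0
  obtain ⟨I, hI, BB, hBB, hres⟩ := core99 d t F p m f hf hf0
  exact ht97 (nodes_of_charP97 F p hm.le) f I hI BB
    (fun b hb => ⟨(hBB b hb).1, (hBB b hb).2.trans hD⟩) hres

/-- the number of seeds -/
def seeds (d t r : ℕ) : ℕ :=
  d + (2 * (r * (2 * t + d)) + 2) ^ 4 ^ (r * (2 * t + d)) + r * (2 * t + d) + r

/-- The final statement with its bound. -/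
theorem stGF_closed99 (d t r : ℕ) (F : Type u) [Field F] [CharZero F] (m n p : ℕ)
    (f : Fin p → MvPolynomial (Fin m) F) (hf : ∀ a, GF.Mixed d t (f a))
    (hr : ∀ s : Finset (Fin p), AlgebraicIndependent F (fun a : s => f a) → s.card ≤ r)
    (h : MvPolynomial (Fin m) F) (hh : h ∈ Algebra.adjoin F (Set.range f))
    (hn : h.totalDegree ≤ n) (h0 : h ≠ 0) :
    ∃ x ∈ S3.grid m n (seeds d t r), MvPolynomial.eval (fun i => ((x i : ℤ) : F)) h ≠ 0 := by
  by_contra hc
  push Not at hc
  refine h0 (FV.jacHit FV.J95.stJ95 FV.rowK97 f hr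
    (s₀ := d + (2 * (r * (2 * t + d)) + 2) ^ 4 ^ (r * (2 * t + d)) + r * (2 * t + d)) ?_ h hh
    (S3.gen_eq_zero_of_grid _ hn hc))
  intro ρ e κ hρ hdet
  refine hit99 d _ _ ?_ F m _ (GF.mixed_jac f hf hρ e κ) hdet
  have h1 := iter_add_one_le (r * (2 * t + d)) (r * (2 * t + d))
  rw [mul_add 2 (r * (2 * t + d)) 1, mul_one] at h1
  exact max_le (Nat.le_add_right _ _) (by omega)

end Pool.Agent.Lib.MP_64d474_lc.SF
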