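import Pool.Agent.Lib.MP_64d474_lc.SF.Defs46

set_option autoImplicit false

/-!
# Row AS: the restriction theorem
-/

namespace Pool.Agent.Lib.MP_64d474_lc.SF

open Polynomial

universe u

section lemmas

/-- clearing the denominators -/
theorem sum_div_mul_prod {R L : Type*} [CommRing R] [Field L] (χ : R →+* L) {N : ℕ}
    (a b : Fin N → R) (hb : ∀ l, χ (b l) ≠ 0) :
    (∑ l, χ (a l) / χ (b l)) * ∏ l, χ (b l) =
      χ (∑ l, a l * ∏ l' ∈ Finset.univ.erase l, b l') := by
  rw [Finset.sum_mul, map_sum]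
  refine Finset.sum_congr rfl fun l _ => ?_
  rw [map_mul, map_prod, ← Finset.mul_prod_erase Finset.univ (fun l => χ (b l)) (Finset.mem_univ l),
    ← mul_assoc, div_mul_cancel₀ _ (hb l)]

variable {F : Type u} [Field F] {m : ℕ}

theorem eval_zero_res (I : Finset (Fin m)) (o : Fin m → F) (g : MvPolynomial (Fin m) F) :
    MvPolynomial.eval (0 : Fin m → F) (AK.res I o g) = MvPolynomial.eval o g := by
  have h1 := MvPolynomial.comp_aeval_apply
    (fun i => (MvPolynomial.C (o i) + if i ∈ I then MvPolynomial.X i else 0 :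
      MvPolynomial (Fin m) F))
    (MvPolynomial.aeval (0 : Fin m → F) : MvPolynomial (Fin m) F →ₐ[F] F) g
  rw [MvPolynomial.aeval_eq_eval] at h1
  rw [AK.res, h1, MvPolynomial.aeval_eq_eval]
  congr 2
  funext i
  rw [map_add, MvPolynomial.eval_C]
  split_ifs <;> simp

theorem res_ne_zero_of_eval {I : Finset (Fin m)} {o : Fin m → F} {g : MvPolynomial (Fin m) F}
    (h : MvPolynomial.eval o g ≠ 0) : AK.res I o g ≠ 0 := by
  intro h0
  apply h
  rw [← eval_zero_res I o g, h0, map_zero]

/-- the homomorphism that recovers `sh` from the restriction -/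
noncomputable def theta (I₁ : Finset (Fin m)) (i : Fin m) :
    MvPolynomial (Fin m) F →ₐ[F] (MvPolynomial (Fin m) F)[X] :=
  MvPolynomial.aeval fun k => if k = i then
    (if i ∈ I₁ then C (MvPolynomial.X i) + X else X) else C (MvPolynomial.X k)

theorem theta_res (I₁ : Finset (Fin m)) (i : Fin m) (o : Fin m → F) (a : MvPolynomial (Fin m) F) :
    (AK.sh (Pi.single i (1 : F)) a).map
      ((AK.res I₁ o : MvPolynomial (Fin m) F →ₐ[F] _) : MvPolynomial (Fin m) F →+* _) =
      theta I₁ i (AK.res (insert i I₁) o a) := by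
  classical
  have h : (Polynomial.mapAlgHom (AK.res I₁ o)).comp (AK.sh (Pi.single i (1 : F))) =
      (theta I₁ i).comp (AK.res (insert i I₁) o) := by
    apply MvPolynomial.algHom_ext
    intro k
    have hC : theta I₁ i (MvPolynomial.C (o k) : MvPolynomial (Fin m) F) =
        C (MvPolynomial.C (o k)) := by
      rw [theta, MvPolynomial.aeval_C]; rfl
    rw [AlgHom.comp_apply, AlgHom.comp_apply, AK.sh, MvPolynomial.aeval_X, AK.res, AK.res,
      MvPolynomial.aeval_X, map_add (theta I₁ i), hC]
    simp only [Polynomial.coe_mapAlgHom, Polynomial.map_add, Polynomial.map_mul, Polynomial.map_C,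
      Polynomial.map_X, RingHom.coe_coe, MvPolynomial.aeval_X, MvPolynomial.aeval_C]
    by_cases hk : k = i
    · subst hk
      rw [Pi.single_eq_same, if_pos (Finset.mem_insert_self _ _), theta, MvPolynomial.aeval_X,
        if_pos rfl]
      by_cases hi : k ∈ I₁
      · simp [hi, add_assoc]
      · simp [hi]
    · rw [Pi.single_eq_of_ne hk]
      by_cases hi : k ∈ I₁
      · rw [if_pos hi, if_pos (Finset.mem_insert_of_mem hi), theta, MvPolynomial.aeval_X,
          if_neg hk]
        simp
      · rw [if_neg hi, if_neg (by simp [hk, hi])]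
        simp
  have h2 := congrArg (fun f => f a) h
  simpa using h2

theorem sp_eq_zero (I₁ : Finset (Fin m)) (i : Fin m) (o : Fin m → F) {a : MvPolynomial (Fin m) F}
    (h : AK.res (insert i I₁) o a = 0) :
    sp i ((AK.res I₁ o : MvPolynomial (Fin m) F →ₐ[F] _) : MvPolynomial (Fin m) F →+* _) a = 0 := by
  have h1 := theta_res I₁ i o a
  rw [h, map_zero] at h1
  rw [sp, RingHom.comp_apply, coe_mapRingHom, ← Polynomial.map_map]
  have h2 : ((AK.sh (Pi.single i (1 : F)) : MvPolynomial (Fin m) F →ₐ[F] _) :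
      MvPolynomial (Fin m) F →+* _) a = AK.sh (Pi.single i (1 : F)) a := rfl
  rw [h2, h1, Polynomial.map_zero]

/-- the sum is a polynomial -/
theorem as_poly {N D : ℕ} (a b : Fin N → MvPolynomial (Fin m) F)
    (hab : ∀ j, (a j).totalDegree ≤ D ∧ (b j).totalDegree ≤ D ∧ b j ≠ 0)
    (h0 : ∑ j, algebraMap _ (KK F m) (a j) / algebraMap _ (KK F m) (b j) ≠ 0)
    (G : MvPolynomial (Fin m) F) (hG : G.totalDegree ≤ D)
    (hG2 : ∑ j, algebraMap _ (KK F m) (a j) / algebraMap _ (KK F m) (b j) =
      algebraMap _ (KK F m) G) :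
    ∃ BB : Finset (MvPolynomial (Fin m) F), (∀ g ∈ BB, g ≠ 0 ∧ g.totalDegree ≤ D) ∧
      ∀ o : Fin m → F, (∀ g ∈ BB, MvPolynomial.eval o g ≠ 0) →
        AK.res ∅ o (∑ j, a j * ∏ l ∈ Finset.univ.erase j, b l) ≠ 0 := by
  classical
  have hinj := IsFractionRing.injective (MvPolynomial (Fin m) F) (KK F m)
  have hG0 : G ≠ 0 := by
    rintro rfl
    rw [hG2, map_zero] at h0
    exact h0 rfl
  refine ⟨insert G (Finset.univ.image b), ?_, ?_⟩
  · intro g hg
    rw [Finset.mem_insert] at hg
    rcases hg with rfl | hg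
    · exact ⟨hG0, hG⟩
    · obtain ⟨j, -, rfl⟩ := Finset.mem_image.1 hg
      exact ⟨(hab j).2.2, (hab j).2.1⟩
  · intro o ho
    have h1 : G * ∏ l, b l = ∑ j, a j * ∏ l ∈ Finset.univ.erase j, b l := by
      apply hinj
      rw [← sum_div_mul_prod (algebraMap _ (KK F m)) a b
        (fun l => (map_ne_zero_iff _ hinj).2 (hab l).2.2), hG2, map_mul, map_prod]
    rw [← h1, map_mul, map_prod]
    refine mul_ne_zero (res_ne_zero_of_eval (ho G (Finset.mem_insert_self _ _)))
      (Finset.prod_ne_zero_iff.2 fun l _ => res_ne_zero_of_eval (ho _ ?_))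
    exact Finset.mem_insert_of_mem (Finset.mem_image_of_mem _ (Finset.mem_univ _))

end lemmas

/-- Row AS. -/
theorem as46 (hCL0 : StCL0.{u}) (hCL2 : StCL2.{u}) (hCR : StCR.{u}) (hPD : StPD.{u}) :
    StAS.{u} := by
  classical
  intro e
  induction e with
  | zero =>
    intro D
    refine ⟨D, ?_⟩
    intro F _ p _ _ m N a b hab hEE h0
    rcases hPD F m N D a b hab h0 with ⟨G, hG, hG2⟩ | ⟨P, i, κ, j, r, hP, -, hPi, -, -, hr, hres⟩
    · obtain ⟨BB, h1, h2⟩ := as_poly a b hab h0 G hG hG2
      exact ⟨∅, by simp, BB, h1, h2⟩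
    · exfalso
      apply hr
      have hP0 : tp i P ≠ 0 := GF.ne_zero_of_pos hPi
      choose s hs using fun l : Fin N => GF.exists_isRes (L := FractionRing (KK F m)[X]) hPi
        (algebraMap _ (FractionRing (KK F m)[X]) (tp i P ^ κ * X ^ j) *
          tau i (algebraMap _ (KK F m) (a l) / algebraMap _ (KK F m) (b l)))
      have hs0 : ∀ l, s l = 0 := fun l =>
        hCL0 F p m (s l) (hCL2 F p m 0 _ (hEE l) i P hPi κ j (s l) (hs l))
      have h1 := GF.IsRes.sum hP0 Finset.univ fun l _ => hs l
      rw [← Finset.mul_sum, ← map_sum] at h1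
      rw [GF.IsRes.unique hP0 hres h1]
      exact Finset.sum_eq_zero fun l _ => hs0 l
  | succ e ih =>
    intro D
    obtain ⟨D₁, hD₁⟩ := hCR D
    obtain ⟨D₂, hD₂⟩ := ih D₁
    refine ⟨max D₂ (max D₁ D), ?_⟩
    intro F _ p _ _ m N a b hab hEE h0
    have hinj := IsFractionRing.injective (MvPolynomial (Fin m) F) (KK F m)
    rcases hPD F m N D a b hab h0 with ⟨G, hG, hG2⟩ | ⟨P, i, κ, j, r, hP, hPD', hPi, hκ, hj, hr,
      hres⟩
    · obtain ⟨BB, h1, h2⟩ := as_poly a b hab h0 G hG hG2
      exact ⟨∅, by simp, BB, fun g hg => ⟨(h1 g hg).1, (h1 g hg).2.trans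
        ((le_max_right _ _).trans (le_max_right _ _))⟩, h2⟩
    · have hP0 : tp i P ≠ 0 := GF.ne_zero_of_pos hPi
      choose u w hw hu hwd hs hφ using fun l : Fin N => hD₁ F m (a l) (b l) P i κ j (hab l).1
        (hab l).2.1 (hab l).2.2 hPD' hP hPi hκ hj
      have hsum : ∑ l, algebraMap _ (KK F m) (u l) / algebraMap _ (KK F m) (w l) = r := by
        have h1 := GF.IsRes.sum hP0 Finset.univ fun l _ => hs l
        rw [← Finset.mul_sum, ← map_sum] at h1
        exact GF.IsRes.unique hP0 h1 hres
      obtain ⟨I₁, hI₁, BB₁, hBB₁, hgood⟩ := hD₂ F p m N u w (fun l => ⟨hu l, hwd l, hw l⟩)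
        (fun l => hCL2 F p m (e + 1) _ (hEE l) i P hPi κ j _ (hs l)) (by rw [hsum]; exact hr)
      refine ⟨insert i I₁, (Finset.card_insert_le _ _).trans (by omega),
        BB₁ ∪ Finset.univ.image w, ?_, ?_⟩
      · intro g hg
        rw [Finset.mem_union] at hg
        rcases hg with hg | hg
        · exact ⟨(hBB₁ g hg).1, (hBB₁ g hg).2.trans (le_max_left _ _)⟩
        · obtain ⟨l, -, rfl⟩ := Finset.mem_image.1 hg
          exact ⟨hw l, (hwd l).trans ((le_max_left _ _).trans (le_max_right _ _))⟩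
      · intro o ho hzero
        set φ : MvPolynomial (Fin m) F →+* MvPolynomial (Fin m) F :=
          ((AK.res I₁ o : MvPolynomial (Fin m) F →ₐ[F] MvPolynomial (Fin m) F) :
            MvPolynomial (Fin m) F →+* MvPolynomial (Fin m) F) with hφdef
        have hφw : ∀ l, φ (w l) ≠ 0 := fun l => res_ne_zero_of_eval
          (ho _ (Finset.mem_union_right _ (Finset.mem_image_of_mem _ (Finset.mem_univ l))))
        have h1 := hgood o fun g hg => ho g (Finset.mem_union_left _ hg)
        -- the residue after specialisation is nonzero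
        have h2 : ∑ l, algebraMap _ (KK F m) (φ (u l)) / algebraMap _ (KK F m) (φ (w l)) ≠ 0 := by
          intro h3
          apply h1
          have h4 := sum_div_mul_prod ((algebraMap _ (KK F m)).comp φ) u w
            (fun l => (map_ne_zero_iff _ hinj).2 (hφw l))
          simp only [RingHom.comp_apply] at h4
          rw [h3, zero_mul] at h4
          exact hinj (by rw [map_zero]; exact h4.symm)
        -- the residue of zero
        apply h2
        have hspP : sp i φ P ≠ 0 ∨ N = 0 := by
          rcases Nat.eq_zero_or_pos N with hN | hN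
          · exact Or.inr hN
          · exact Or.inl (hφ ⟨0, hN⟩ φ (hφw _)).2.1
        rcases hspP with hspP | hN
        · have h3 := GF.IsRes.sum hspP Finset.univ fun l _ => (hφ l φ (hφw l)).2.2
          rw [← Finset.mul_sum] at h3
          have h4 := sum_div_mul_prod
            ((algebraMap (KK F m)[X] (FractionRing (KK F m)[X])).comp (sp i φ)) a b
            (fun l => (map_ne_zero_iff _ (IsFractionRing.injective _ _)).2 (hφ l φ (hφw l)).1)
          simp only [RingHom.comp_apply] at h4
          have h5 : sp i φ (∑ l, a l * ∏ l' ∈ Finset.univ.erase l, b l') = 0 :=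
            sp_eq_zero I₁ i o hzero
          rw [h5, map_zero, mul_eq_zero] at h4
          rcases h4 with h4 | h4
          · rw [h4, mul_zero] at h3
            exact GF.IsRes.unique hspP h3 (GF.IsRes.zero _)
          · exfalso
            obtain ⟨l, -, hl⟩ := Finset.prod_eq_zero_iff.1 h4
            exact (map_ne_zero_iff _ (IsFractionRing.injective _ _)).2 (hφ l φ (hφw l)).1 hl
        · subst hN
          simp

end Pool.Agent.Lib.MP_64d474_lc.SF
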