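import Pool.Agent.Lib.MP_64d474_lc.SF.Glue46
import Pool.Agent.Lib.MP_64d474_lc.SF.CL52
import Pool.Agent.Lib.MP_64d474_lc.SF.CR99
import Pool.Agent.Lib.MP_64d474_lc.SF.PD88

set_option autoImplicit false

namespace Pool.Agent.Lib.MP_64d474_lc.SF

universe u

/-- The generator does not kill mixed polynomials. -/
theorem stHIT66 : GF.StHIT.{u} := hit46 cl0_52 cl1_52 cl2_52 cr99 GF.stPD88

end Pool.Agent.Lib.MP_64d474_lc.SF
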