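import Pool.Agent.Lib.MP_64d474_lc.SF.Glue46
import Pool.Agent.Lib.MP_64d474_lc.SF.CR99
import Pool.Agent.Lib.MP_64d474_lc.SF.CL52
import Pool.Agent.Lib.MP_64d474_lc.SF.PD88
import Pool.Agent.Lib.MP_64d474_lc.GF.Fin66
import Pool.Agent.Lib.MP_64d474_lc.GF.X46

/-!
# Sums of arbitrarily many fractions of low degree: everything together
-/

set_option autoImplicit false

namespace Pool.Agent.Lib.MP_64d474_lc.SF

universe u

theorem stHIT99 : GF.StHIT.{u} := hit46 cl0_52 cl1_52 cl2_52 cr99 GF.stPD88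

theorem stGF99 : GF.StGF.{u} := GF.stGF stHIT99

theorem stGFM99 : GF.StGFM.{u} := GF.stGFM stGF99 GF.stX46

end Pool.Agent.Lib.MP_64d474_lc.SF
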