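import Pool.Agent.Lib.MP_64d474_lc.SF.Defs46

/-! # Rows CL0, CL1 -/

set_option autoImplicit false

namespace Pool.Agent.Lib.MP_64d474_lc.SF

open MvPolynomial

universe u

theorem cl0_97 : StCL0.{u} := by
  intro F _ p _ m t ht
  obtain ⟨C, hC⟩ := ht
  have hp : 1 < p := (Fact.out : p.Prime).one_lt
  have h1 : C + 1 < p ^ (C + 1) := Nat.lt_pow_self hp
  have h := hC (C + 1)
  have he : {x : KK F m | ∃ (G : MvPolynomial (Fin m) F) (h : KK F m),
      G.totalDegree + (p ^ (C + 1) - 1) ≤ 0 * (p ^ (C + 1) - 1) + C ∧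
      x = algebraMap _ (KK F m) G * h ^ p ^ (C + 1)} = ∅ := by
    ext x
    simp only [Set.mem_ofPred_eq, Set.mem_empty_iff_false, iff_false]
    rintro ⟨G, h, hG, -⟩
    omega
  rw [he, AddSubgroup.closure_empty, AddSubgroup.mem_bot] at h
  exact h

theorem cl1_97 : StCL1.{u} := by
  intro F _ p _ m c a b hb hbc
  refine ⟨a.totalDegree, fun n => AddSubgroup.subset_closure ?_⟩
  have hq : 0 < p ^ n := pow_pos (Fact.out : p.Prime).pos n
  refine ⟨a * b ^ (p ^ n - 1), (algebraMap _ (KK F m) b)⁻¹, ?_, ?_⟩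
  · have h1 : (a * b ^ (p ^ n - 1)).totalDegree ≤ a.totalDegree + (p ^ n - 1) * c := by
      refine (totalDegree_mul _ _).trans (Nat.add_le_add_left ?_ _)
      exact (totalDegree_pow _ _).trans (Nat.mul_le_mul_left _ hbc)
    calc (a * b ^ (p ^ n - 1)).totalDegree + (p ^ n - 1)
        ≤ a.totalDegree + (p ^ n - 1) * c + (p ^ n - 1) := Nat.add_le_add_right h1 _
      _ = (c + 1) * (p ^ n - 1) + a.totalDegree := by ring
  · have h1 : algebraMap (MvPolynomial (Fin m) F) (KK F m) b ≠ 0 := by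
      intro h
      exact hb (IsFractionRing.injective (MvPolynomial (Fin m) F) (KK F m)
        (by rw [h, map_zero]))
    obtain ⟨q, hq'⟩ : ∃ q, p ^ n = q + 1 := ⟨p ^ n - 1, by omega⟩
    rw [hq', Nat.add_sub_cancel, map_mul, map_pow, inv_pow, pow_succ]
    field_simp

end Pool.Agent.Lib.MP_64d474_lc.SF
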