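import Pool.Agent.Lib.MP_64d474_lc.SF.Defs26

set_option autoImplicit false

/-!
# Residues by Cramer's rule
-/

namespace Pool.Agent.Lib.MP_64d474_lc.SF

open Polynomial

universe u

section mat

variable {S : Type*} [CommRing S]

/-- The matrix of `(U, V) ↦ U b + V c`, `deg U < n`, `deg V < N`. -/
noncomputable def mt (b c : S[X]) (n N : ℕ) : Matrix (Fin n ⊕ Fin N) (Fin n ⊕ Fin N) S :=
  Matrix.of fun r j => (Sum.elim (fun i : Fin n => X ^ (i : ℕ) * b)
    (fun i : Fin N => X ^ (i : ℕ) * c) j).coeff (finSumFinEquiv r : ℕ)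

/-- the determinant -/
noncomputable def D0 (b c : S[X]) (n N : ℕ) : S := (mt b c n N).det

/-- the numerator for the coefficient `i` of `U` in `U b + V c = w` -/
noncomputable def D1 (b c w : S[X]) (n N : ℕ) (i : Fin n) : S :=
  (mt b c n N).cramer (fun r => w.coeff (finSumFinEquiv r : ℕ)) (Sum.inl i)

theorem mt_map {R : Type*} [CommRing R] (φ : S →+* R) (b c : S[X]) (n N : ℕ) :
    (mt b c n N).map φ = mt (b.map φ) (c.map φ) n N := by
  ext r j
  rcases j with j | j
  · simp [mt, Matrix.map_apply, ← Polynomial.coeff_map, Polynomial.map_mul, Polynomial.map_pow]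
  · simp [mt, Matrix.map_apply, ← Polynomial.coeff_map, Polynomial.map_mul, Polynomial.map_pow]

theorem D0_map {R : Type*} [CommRing R] (φ : S →+* R) (b c : S[X]) (n N : ℕ) :
    φ (D0 b c n N) = D0 (b.map φ) (c.map φ) n N := by
  rw [D0, D0, ← mt_map, RingHom.map_det]; rfl

theorem D1_map {R : Type*} [CommRing R] (φ : S →+* R) (b c w : S[X]) (n N : ℕ) (i : Fin n) :
    φ (D1 b c w n N i) = D1 (b.map φ) (c.map φ) (w.map φ) n N i := by
  rw [D1, D1, Matrix.cramer_apply, Matrix.cramer_apply, RingHom.map_det, ← mt_map]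
  congr 1
  ext r j
  simp only [RingHom.mapMatrix_apply, Matrix.map_apply, Matrix.updateCol_apply]
  split_ifs with h
  · rw [Polynomial.coeff_map]
  · rfl

theorem mt_mulVec (b c : S[X]) (n N : ℕ) (x : Fin n ⊕ Fin N → S) (r : Fin n ⊕ Fin N) :
    (mt b c n N).mulVec x r =
      ((∑ i : Fin n, C (x (Sum.inl i)) * X ^ (i : ℕ)) * b +
        (∑ i : Fin N, C (x (Sum.inr i)) * X ^ (i : ℕ)) * c).coeff (finSumFinEquiv r : ℕ) := by
  rw [Matrix.mulVec, dotProduct, Fintype.sum_sum_type, coeff_add, Finset.sum_mul, Finset.sum_mul,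
    finsetSum_coeff, finsetSum_coeff]
  congr 1
  · refine Finset.sum_congr rfl fun i _ => ?_
    rw [mul_assoc, coeff_C_mul]
    simp [mt, mul_comm]
  · refine Finset.sum_congr rfl fun i _ => ?_
    rw [mul_assoc, coeff_C_mul]
    simp [mt, mul_comm]

theorem degree_sum_lt (n : ℕ) (x : Fin n → S) :
    (∑ i : Fin n, C (x i) * X ^ (i : ℕ)).degree < (n : WithBot ℕ) :=
  degree_sum_fin_lt x

theorem coeff_sum_fin (n : ℕ) (x : Fin n → S) (j : Fin n) :
    (∑ i : Fin n, C (x i) * X ^ (i : ℕ)).coeff (j : ℕ) = x j := by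
  rw [finsetSum_coeff, Finset.sum_eq_single j]
  · simp
  · intro i _ hij
    rw [coeff_C_mul, coeff_X_pow, if_neg (fun h => hij (Fin.ext h.symm)), mul_zero]
  · intro h; exact absurd (Finset.mem_univ _) h

theorem degree_comb_lt [NoZeroDivisors S] {b c U V : S[X]} {n N : ℕ} (hb : b.natDegree ≤ N)
    (hc : c.natDegree ≤ n) (hU : U.degree < (n : WithBot ℕ)) (hV : V.degree < (N : WithBot ℕ)) :
    (U * b + V * c).degree < ((n + N : ℕ) : WithBot ℕ) := by
  refine lt_of_le_of_lt (degree_add_le _ _) (max_lt ?_ ?_)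
  · by_cases hb0 : b = 0
    · rw [hb0, mul_zero, degree_zero]; exact WithBot.bot_lt_coe _
    by_cases hU0 : U = 0
    · rw [hU0, zero_mul, degree_zero]; exact WithBot.bot_lt_coe _
    rw [degree_eq_natDegree hU0, Nat.cast_lt] at hU
    rw [degree_eq_natDegree (mul_ne_zero hU0 hb0), natDegree_mul hU0 hb0]
    exact_mod_cast by omega
  · by_cases hb0 : c = 0
    · rw [hb0, mul_zero, degree_zero]; exact WithBot.bot_lt_coe _
    by_cases hU0 : V = 0
    · rw [hU0, zero_mul, degree_zero]; exact WithBot.bot_lt_coe _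
    rw [degree_eq_natDegree hU0, Nat.cast_lt] at hV
    rw [degree_eq_natDegree (mul_ne_zero hU0 hb0), natDegree_mul hU0 hb0]
    exact_mod_cast by omega

end mat

section field

variable {k : Type u} [Field k]

theorem eq_of_coeff_lt {p q : k[X]} {M : ℕ} (hp : p.degree < (M : WithBot ℕ))
    (hq : q.degree < (M : WithBot ℕ)) (h : ∀ r < M, p.coeff r = q.coeff r) : p = q := by
  ext r
  by_cases hr : r < M
  · exact h r hr
  · rw [coeff_eq_zero_of_degree_lt (lt_of_lt_of_le hp (by exact_mod_cast not_lt.1 hr)),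
      coeff_eq_zero_of_degree_lt (lt_of_lt_of_le hq (by exact_mod_cast not_lt.1 hr))]

theorem exists_UV {b c w : k[X]} {n N : ℕ} (hb : b.natDegree ≤ N) (hc : c.natDegree ≤ n)
    (hw : w.degree < ((n + N : ℕ) : WithBot ℕ)) (hD : D0 b c n N ≠ 0) :
    ∃ U V : k[X], U.degree < (n : WithBot ℕ) ∧ V.degree < (N : WithBot ℕ) ∧ U * b + V * c = w ∧
      ∀ i : Fin n, U.coeff (i : ℕ) = D1 b c w n N i / D0 b c n N := by
  set M := mt b c n N with hM
  set wv : Fin n ⊕ Fin N → k := fun r => w.coeff (finSumFinEquiv r : ℕ) with hwv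
  set x : Fin n ⊕ Fin N → k := fun j => (D0 b c n N)⁻¹ * M.cramer wv j with hx
  have hMx : M.mulVec x = wv := by
    have h1 : x = (D0 b c n N)⁻¹ • M.cramer wv := by funext j; simp [hx]
    rw [h1, Matrix.mulVec_smul, Matrix.mulVec_cramer, smul_smul, hM]
    change ((D0 b c n N)⁻¹ * D0 b c n N) • wv = wv
    rw [inv_mul_cancel₀ hD, one_smul]
  refine ⟨∑ i : Fin n, C (x (Sum.inl i)) * X ^ (i : ℕ), ∑ i : Fin N, C (x (Sum.inr i)) * X ^ (i : ℕ),
    degree_sum_lt _ _, degree_sum_lt _ _, ?_, ?_⟩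
  · refine eq_of_coeff_lt (degree_comb_lt hb hc (degree_sum_lt _ _) (degree_sum_lt _ _)) hw ?_
    intro r hr
    have h2 := congrFun hMx (finSumFinEquiv.symm ⟨r, hr⟩)
    rw [hM, mt_mulVec] at h2
    simpa [hwv] using h2
  · intro i
    rw [coeff_sum_fin n (fun i => x (Sum.inl i)) i]
    simp only [hx, D1]
    rw [div_eq_inv_mul]

theorem isCoprime_of_D0 {b c : k[X]} {n N : ℕ} (hb : b.natDegree ≤ N) (hc : c.natDegree ≤ n)
    (hn : 0 < n) (hD : D0 b c n N ≠ 0) : IsCoprime b c := by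
  obtain ⟨U, V, -, -, h, -⟩ := exists_UV (w := 1) hb hc (by
    rw [degree_one]; exact_mod_cast (by omega : 0 < n + N)) hD
  exact ⟨U, V, h⟩

theorem D0_ne_zero {b c : k[X]} {n N : ℕ} (hb : b.natDegree ≤ N) (hc : c.natDegree = n)
    (hc0 : c ≠ 0) (h : IsCoprime b c) : D0 b c n N ≠ 0 := by
  intro h0
  obtain ⟨x, hx0, hx⟩ := Matrix.exists_mulVec_eq_zero_iff.2 h0
  apply hx0
  have h1 : (∑ i : Fin n, C (x (Sum.inl i)) * X ^ (i : ℕ)) * b +
      (∑ i : Fin N, C (x (Sum.inr i)) * X ^ (i : ℕ)) * c = 0 := by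
    refine eq_of_coeff_lt (M := n + N) (degree_comb_lt hb hc.le (degree_sum_lt _ _)
      (degree_sum_lt _ _)) (by rw [degree_zero]; exact WithBot.bot_lt_coe _) ?_
    intro r hr
    have h2 := congrFun hx (finSumFinEquiv.symm ⟨r, hr⟩)
    rw [mt_mulVec] at h2
    simpa using h2
  have h2 : c ∣ (∑ i : Fin n, C (x (Sum.inl i)) * X ^ (i : ℕ)) := by
    refine h.symm.dvd_of_dvd_mul_right ?_
    exact ⟨-(∑ i : Fin N, C (x (Sum.inr i)) * X ^ (i : ℕ)), by linear_combination h1⟩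
  have hU : (∑ i : Fin n, C (x (Sum.inl i)) * X ^ (i : ℕ)) = 0 := by
    refine eq_zero_of_dvd_of_degree_lt h2 ?_
    rw [degree_eq_natDegree hc0, hc]
    exact degree_sum_lt _ _
  rw [hU, zero_mul, zero_add] at h1
  have hV := (mul_eq_zero.1 h1).resolve_right hc0
  funext j
  rcases j with j | j
  · rw [← coeff_sum_fin n (fun i => x (Sum.inl i)) j, hU]; rfl
  · rw [← coeff_sum_fin N (fun i => x (Sum.inr i)) j, hV]; rfl

/-- The residue of `w / (P ^ o b)` by Cramer's rule. -/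
theorem isRes_cramer {P b w : k[X]} {o N : ℕ} (hP : 0 < P.natDegree) (ho : 0 < o)
    (hb : b.natDegree ≤ N) (hw : w.degree < ((o * P.natDegree + N : ℕ) : WithBot ℕ))
    (hD : D0 b (P ^ o) (o * P.natDegree) N ≠ 0) :
    IsRes P (algebraMap k[X] (FractionRing k[X]) w / algebraMap k[X] (FractionRing k[X]) (P ^ o * b))
      (D1 b (P ^ o) w (o * P.natDegree) N ⟨o * P.natDegree - 1, Nat.sub_lt (Nat.mul_pos ho hP) one_pos⟩ /
        (D0 b (P ^ o) (o * P.natDegree) N * P.leadingCoeff ^ o)) := by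
  have hn : 0 < o * P.natDegree := Nat.mul_pos ho hP
  have hcop := isCoprime_of_D0 hb (natDegree_pow P o).le hn hD
  obtain ⟨U, V, hU, -, h1, h2⟩ := exists_UV hb (natDegree_pow P o).le hw hD
  have hP0 : P ≠ 0 := by rintro rfl; simp at hP
  have hb0 : b ≠ 0 := by
    rintro rfl
    have h3 : IsUnit (P ^ o) := (isCoprime_zero_left.1 hcop)
    have h4 := natDegree_eq_zero_of_isUnit h3
    rw [natDegree_pow] at h4
    omega
  have hinj := IsFractionRing.injective k[X] (FractionRing k[X])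
  have ha : algebraMap k[X] (FractionRing k[X]) P ≠ 0 := by
    rw [Ne, map_eq_zero_iff _ hinj]; exact hP0
  have hb' : algebraMap k[X] (FractionRing k[X]) b ≠ 0 := by
    rw [Ne, map_eq_zero_iff _ hinj]; exact hb0
  refine ⟨o, U, V, b, hU, (IsCoprime.pow_right_iff ho).1 hcop, ?_, ?_⟩
  · rw [← h1, map_add, map_mul, map_mul, map_mul, map_pow]
    field_simp
  · have h3 := h2 ⟨o * P.natDegree - 1, Nat.sub_lt hn one_pos⟩
    simp only at h3
    rw [h3, div_div]

end field

end Pool.Agent.Lib.MP_64d474_lc.SF
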