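import Pool.Agent.Lib.MP_64d474_lc.SF.Defs46
import Pool.Agent.Lib.MP_64d474_lc.SF.Spec26
import Pool.Agent.Lib.MP_64d474_lc.AK.R2
import Pool.Agent.Lib.MP_64d474_lc.AK.RowH82

set_option autoImplicit false

/-!
# Row CR: bounded degree and specialisation of the residues
-/

namespace Pool.Agent.Lib.MP_64d474_lc.SF

open Polynomial

universe u

namespace CR26

section field

variable {k : Type u} [Field k] {L : Type u} [Field L] [Algebra k[X] L] [IsFractionRing k[X] L]

/-- The residue of `w / (P ^ o b)` by Cramer's rule. -/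
theorem isRes_cramer {P b w : k[X]} {o N n : ℕ} (hP : 0 < P.natDegree) (ho : 0 < o)
    (hn : n = o * P.natDegree) (hb : b.natDegree ≤ N) (hw : w.degree < ((n + N : ℕ) : WithBot ℕ))
    (hD : D0 b (P ^ o) n N ≠ 0) (i : Fin n) (hi : (i : ℕ) = n - 1) :
    b ≠ 0 ∧ GF.IsRes P (algebraMap k[X] L w / algebraMap k[X] L (P ^ o * b))
      (D1 b (P ^ o) w n N i / (D0 b (P ^ o) n N * P.leadingCoeff ^ o)) := by
  subst hn
  have hn : 0 < o * P.natDegree := Nat.mul_pos ho hP
  have hcop := isCoprime_of_D0 hb (natDegree_pow P o).le hn hD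
  obtain ⟨U, V, hU, -, h1, h2⟩ := exists_UV hb (natDegree_pow P o).le hw hD
  have hP0 : P ≠ 0 := by rintro rfl; simp at hP
  have hb0 : b ≠ 0 := by
    rintro rfl
    have h3 : IsUnit (P ^ o) := (isCoprime_zero_left.1 hcop)
    have h4 := natDegree_eq_zero_of_isUnit h3
    rw [natDegree_pow] at h4
    omega
  have ha : algebraMap k[X] L P ≠ 0 := GF.algebraMap_ne hP0
  have hb' : algebraMap k[X] L b ≠ 0 := GF.algebraMap_ne hb0
  refine ⟨hb0, o, U, V, b, hU, (IsCoprime.pow_right_iff ho).1 hcop, hb0, ?_, ?_⟩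
  · rw [← h1, map_add, map_mul, map_mul, map_mul, map_pow]
    field_simp
  · have h3 := h2 i
    rw [hi] at h3
    rw [h3, div_div]

theorem core {S : Type u} [CommRing S] [IsDomain S] (ψ : S →+* k) {p q A : S[X]}
    {κ j o N n : ℕ} (hp : 0 < p.natDegree) (hn : n = (o + 1) * p.natDegree)
    (hq : q.natDegree ≤ N) (hw : (p ^ (κ + 1) * A * X ^ j).natDegree < N)
    (hl : ψ p.leadingCoeff ≠ 0) (hD : ψ (D0 q (p ^ (o + 1)) n N) ≠ 0)
    (i : Fin n) (hi : (i : ℕ) = n - 1) :
    q.map ψ ≠ 0 ∧ p.map ψ ≠ 0 ∧ GF.IsRes (p.map ψ) (algebraMap k[X] L ((p.map ψ) ^ κ * X ^ j) *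
        (algebraMap k[X] L (A.map ψ) / algebraMap k[X] L ((p.map ψ) ^ o * q.map ψ)))
      (ψ (D1 q (p ^ (o + 1)) (p ^ (κ + 1) * A * X ^ j) n N i) /
        ψ (D0 q (p ^ (o + 1)) n N * p.leadingCoeff ^ (o + 1))) := by
  have hμ : (p.map ψ).natDegree = p.natDegree := natDegree_map_of_leadingCoeff_ne_zero ψ hl
  have hlc : (p.map ψ).leadingCoeff = ψ p.leadingCoeff :=
    leadingCoeff_map_of_leadingCoeff_ne_zero ψ hl
  have hp' : 0 < (p.map ψ).natDegree := by rw [hμ]; exact hp
  have hD' : D0 (q.map ψ) ((p.map ψ) ^ (o + 1)) n N ≠ 0 := by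
    rw [D0_map, Polynomial.map_pow] at hD; exact hD
  have hwm : ((p ^ (κ + 1) * A * X ^ j).map ψ).degree < ((n + N : ℕ) : WithBot ℕ) := by
    refine lt_of_le_of_lt degree_le_natDegree ?_
    have h1 : ((p ^ (κ + 1) * A * X ^ j).map ψ).natDegree ≤ _ := natDegree_map_le
    exact_mod_cast (by omega : ((p ^ (κ + 1) * A * X ^ j).map ψ).natDegree < n + N)
  obtain ⟨hq0, hres⟩ := isRes_cramer (L := L) hp' (Nat.succ_pos o) (by rw [hμ]; exact hn)
    ((natDegree_map_le).trans hq) hwm hD' i hi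
  have hp0 : p.map ψ ≠ 0 := by intro h; rw [h] at hp'; simp at hp'
  refine ⟨hq0, hp0, ?_⟩
  have e1 : ψ (D1 q (p ^ (o + 1)) (p ^ (κ + 1) * A * X ^ j) n N i) /
        ψ (D0 q (p ^ (o + 1)) n N * p.leadingCoeff ^ (o + 1)) =
      D1 (q.map ψ) ((p.map ψ) ^ (o + 1)) ((p ^ (κ + 1) * A * X ^ j).map ψ) n N i /
        (D0 (q.map ψ) ((p.map ψ) ^ (o + 1)) n N * (p.map ψ).leadingCoeff ^ (o + 1)) := by
    rw [D1_map, map_mul, map_pow, D0_map, hlc, Polynomial.map_pow]
  have e2 : algebraMap k[X] L ((p.map ψ) ^ κ * X ^ j) *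
        (algebraMap k[X] L (A.map ψ) / algebraMap k[X] L ((p.map ψ) ^ o * q.map ψ)) =
      algebraMap k[X] L ((p ^ (κ + 1) * A * X ^ j).map ψ) /
        algebraMap k[X] L ((p.map ψ) ^ (o + 1) * q.map ψ) := by
    have ha : algebraMap k[X] L (p.map ψ) ≠ 0 := GF.algebraMap_ne hp0
    have hb : algebraMap k[X] L (q.map ψ) ≠ 0 := GF.algebraMap_ne hq0
    simp only [Polynomial.map_mul, Polynomial.map_pow, Polynomial.map_X, map_mul, map_pow]
    field_simp
    ring
  rw [e1, e2]
  exact hres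

end field

theorem isCoprime_sh {F : Type u} [Field F] {m : ℕ} (v : Fin m → F)
    {P b : MvPolynomial (Fin m) F} (hP : Irreducible P) (hb : ¬ P ∣ b) :
    IsCoprime ((AK.sh v P).map (algebraMap (MvPolynomial (Fin m) F) (KK F m)))
      ((AK.sh v b).map (algebraMap (MvPolynomial (Fin m) F) (KK F m))) := by
  have hrel : IsRelPrime P b := hP.isRelPrime_iff_not_dvd.2 hb
  have hrel2 := AK.isRelPrime_sh2 v hrel
  rw [Polynomial.isCoprime_iff_aeval_ne_zero_of_isAlgClosed (KK F m) (AlgebraicClosure (KK F m))]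
  intro τ
  by_contra hcon
  push Not at hcon
  set f : MvPolynomial (Fin m) F →+* AlgebraicClosure (KK F m) :=
    (algebraMap (KK F m) (AlgebraicClosure (KK F m))).comp
      (algebraMap (MvPolynomial (Fin m) F) (KK F m)) with hf
  have hinj : Function.Injective f :=
    (algebraMap (KK F m) (AlgebraicClosure (KK F m))).injective.comp
      (IsFractionRing.injective (MvPolynomial (Fin m) F) (KK F m))
  refine S3.no_root2 f hinj hrel2 τ ?_ ?_
  · have h := hcon.1
    rwa [aeval_def, eval₂_map] at h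
  · have h := hcon.2
    rwa [aeval_def, eval₂_map] at h

theorem totalDegree_det_le {F : Type u} [Field F] {m : ℕ} {ι : Type*} [Fintype ι] [DecidableEq ι]
    (M : Matrix ι ι (MvPolynomial (Fin m) F)) (E : ℕ) (h : ∀ i j, (M i j).totalDegree ≤ E) :
    M.det.totalDegree ≤ Fintype.card ι * E := by
  rw [Matrix.det_apply']
  refine (MvPolynomial.totalDegree_finsetSum _ _).trans (Finset.sup_le fun s _ => ?_)
  refine (MvPolynomial.totalDegree_mul _ _).trans ?_
  have h1 : ((((Equiv.Perm.sign s : ℤˣ) : ℤ) : MvPolynomial (Fin m) F)).totalDegree = 0 := by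
    rcases Int.units_eq_one_or (Equiv.Perm.sign s) with h2 | h2
    · rw [h2]; simp
    · rw [h2]; simp
  rw [h1, zero_add]
  refine (MvPolynomial.totalDegree_finsetProd _ _).trans ?_
  refine (Finset.sum_le_sum fun i _ => h (s i) i).trans ?_
  rw [Finset.sum_const, Finset.card_univ, smul_eq_mul]

theorem coeff_totalDegree_le {F : Type u} [Field F] {m d : ℕ} {x : (MvPolynomial (Fin m) F)[X]}
    (hx : x ∈ AK.filtX F (Fin m) d) (j : ℕ) : (x.coeff j).totalDegree ≤ d := by
  rcases hx j with h | h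
  · rw [h]; simp
  · omega

theorem natDegree_le_of_filtX {F : Type u} [Field F] {m d : ℕ} {x : (MvPolynomial (Fin m) F)[X]}
    (hx : x ∈ AK.filtX F (Fin m) d) : x.natDegree ≤ d := by
  rw [natDegree_le_iff_coeff_eq_zero]
  intro N hN
  rcases hx N with h | h
  · exact h
  · omega

theorem filtX_pow {F : Type u} [Field F] {m d : ℕ} {x : (MvPolynomial (Fin m) F)[X]}
    (hx : x ∈ AK.filtX F (Fin m) d) (n : ℕ) : x ^ n ∈ AK.filtX F (Fin m) (n * d) := by
  induction n with
  | zero => rw [pow_zero, zero_mul]; exact AK.filtX_one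
  | succ n ih => rw [pow_succ, Nat.succ_mul]; exact AK.filtX_mul ih hx

theorem filtX_X_pow {F : Type u} [Field F] {m : ℕ} (j : ℕ) :
    (X ^ j : (MvPolynomial (Fin m) F)[X]) ∈ AK.filtX F (Fin m) j := by
  intro a
  rw [coeff_X_pow]
  split_ifs with h
  · right
    rw [h]; simp
  · left; rfl

theorem cr26 : StCR.{u} := by
  intro D
  set N : ℕ := D * D + 3 * D + 1 with hN
  set E : ℕ := N + (D + 1) * D with hE
  refine ⟨((D + 1) * D + N) * E + (D + 1) * D, ?_⟩
  intro F _ m a b P i κ j ha hb hb0 hP hirr hpos hκ hj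
  -- the order of `P` in `b`
  have hfin : FiniteMultiplicity P b := FiniteMultiplicity.of_not_isUnit hirr.not_isUnit hb0
  obtain ⟨b', hbb, hPb⟩ := hfin.exists_eq_pow_mul_and_not_dvd
  set o := multiplicity P b with ho
  have hP0 : P ≠ 0 := hirr.ne_zero
  have hb'0 : b' ≠ 0 := by rintro rfl; rw [mul_zero] at hbb; exact hb0 hbb
  set v : Fin m → F := Pi.single i (1 : F) with hv
  set p : (MvPolynomial (Fin m) F)[X] := AK.sh v P with hp
  set q : (MvPolynomial (Fin m) F)[X] := AK.sh v b' with hq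
  set A : (MvPolynomial (Fin m) F)[X] := AK.sh v a with hA
  set ι := algebraMap (MvPolynomial (Fin m) F) (KK F m) with hι
  have hιinj : Function.Injective ι := IsFractionRing.injective _ _
  have htp : ∀ x, tp i x = (AK.sh v x).map ι := by
    intro x
    simp only [tp, sp, RingHom.comp_id, RingHom.comp_apply, coe_mapRingHom]
    rfl
  have hsp : ∀ (φ : MvPolynomial (Fin m) F →+* MvPolynomial (Fin m) F) x,
      sp i φ x = (AK.sh v x).map (ι.comp φ) := by
    intro φ x
    simp only [sp, RingHom.comp_apply, coe_mapRingHom]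
    rfl
  have hpdeg : 0 < p.natDegree := by
    rw [htp, natDegree_map_eq_of_injective hιinj] at hpos
    exact hpos
  -- degrees
  have hPpos : 1 ≤ P.totalDegree := le_trans hpdeg (AK.sh_natDegree_le v P)
  have hpow : ∀ n : ℕ, (P ^ n).totalDegree = n * P.totalDegree := by
    intro n
    induction n with
    | zero => simp
    | succ n ih =>
      rw [pow_succ, MvPolynomial.totalDegree_mul_of_isDomain (pow_ne_zero _ hP0) hP0, ih,
        Nat.succ_mul]
  have hdegb : b.totalDegree = o * P.totalDegree + b'.totalDegree := by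
    conv_lhs => rw [hbb]
    rw [MvPolynomial.totalDegree_mul_of_isDomain (pow_ne_zero _ hP0) hb'0, hpow]
  have hoD : o ≤ D := by nlinarith
  have hb'D : b'.totalDegree ≤ D := by omega
  have hpf : p ∈ AK.filtX F (Fin m) D := AK.filtX_mono hP (AK.sh_mem_filtX v P)
  have hqf : q ∈ AK.filtX F (Fin m) D := AK.filtX_mono hb'D (AK.sh_mem_filtX v b')
  have hAf : A ∈ AK.filtX F (Fin m) D := AK.filtX_mono ha (AK.sh_mem_filtX v a)
  have hwf : p ^ (κ + 1) * A * X ^ j ∈ AK.filtX F (Fin m) (D * D + 3 * D) := by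
    refine AK.filtX_mono (d := (κ + 1) * D + D + j) ?_
      (AK.filtX_mul (AK.filtX_mul (filtX_pow hpf _) hAf) (filtX_X_pow j))
    nlinarith
  have hcf : p ^ (o + 1) ∈ AK.filtX F (Fin m) ((D + 1) * D) := by
    refine AK.filtX_mono ?_ (filtX_pow hpf (o + 1))
    exact Nat.mul_le_mul_right _ (by omega)
  have hμ : p.natDegree ≤ D := natDegree_le_of_filtX hpf
  set n : ℕ := (o + 1) * p.natDegree with hn
  have hnpos : 0 < n := Nat.mul_pos (Nat.succ_pos _) hpdeg
  have hnD : n ≤ (D + 1) * D := Nat.mul_le_mul (by omega) hμ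
  have hqN : q.natDegree ≤ N := (natDegree_le_of_filtX hqf).trans (by nlinarith)
  have hwN : (p ^ (κ + 1) * A * X ^ j).natDegree < N := by
    have := natDegree_le_of_filtX hwf
    omega
  have hmt : ∀ r s, ((mt q (p ^ (o + 1)) n N) r s).totalDegree ≤ (D + 1) * D := by
    intro r s
    have h1 : ∀ (x : (MvPolynomial (Fin m) F)[X]) (c d : ℕ), x ∈ AK.filtX F (Fin m) ((D + 1) * D) →
        ((X ^ c * x).coeff d).totalDegree ≤ (D + 1) * D := by
      intro x c d hx
      rw [coeff_X_pow_mul']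
      split_ifs
      · exact coeff_totalDegree_le hx _
      · simp
    rcases s with s | s
    · exact h1 q s _ (AK.filtX_mono (by nlinarith) hqf)
    · exact h1 _ s _ hcf
  let i0 : Fin n := ⟨n - 1, Nat.sub_lt hnpos one_pos⟩
  have hlc : p.leadingCoeff ≠ 0 := leadingCoeff_ne_zero.2 (by intro h; rw [h] at hpdeg; simp at hpdeg)
  have hD0 : D0 q (p ^ (o + 1)) n N ≠ 0 := by
    intro h0
    have h1 : ι (D0 q (p ^ (o + 1)) n N) = 0 := by rw [h0, map_zero]
    rw [D0_map] at h1
    refine D0_ne_zero (natDegree_map_le.trans hqN) ?_ ?_ ?_ h1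
    · rw [natDegree_map_eq_of_injective hιinj, natDegree_pow]
    · rw [Ne, Polynomial.map_eq_zero_iff hιinj]
      exact pow_ne_zero _ (leadingCoeff_ne_zero.1 hlc)
    · rw [Polynomial.map_pow]
      exact ((isCoprime_sh v hirr hPb).symm).pow_right
  have hbm : ∀ (ψ : MvPolynomial (Fin m) F →+* KK F m), (AK.sh v b).map ψ =
      (p.map ψ) ^ o * q.map ψ := by
    intro ψ
    conv_lhs => rw [hbb]
    rw [map_mul, map_pow, Polynomial.map_mul, Polynomial.map_pow]
  refine ⟨D1 q (p ^ (o + 1)) (p ^ (κ + 1) * A * X ^ j) n N i0,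
    D0 q (p ^ (o + 1)) n N * p.leadingCoeff ^ (o + 1), mul_ne_zero hD0 (pow_ne_zero _ hlc),
    ?_, ?_, ?_, ?_⟩
  · rw [D1, Matrix.cramer_apply]
    refine (totalDegree_det_le _ E ?_).trans ?_
    · intro r s
      rw [Matrix.updateCol_apply]
      split_ifs
      · refine (coeff_totalDegree_le hwf _).trans ?_
        omega
      · refine (hmt r s).trans ?_
        omega
    · rw [Fintype.card_sum, Fintype.card_fin, Fintype.card_fin]
      refine le_trans (Nat.mul_le_mul_right _ (Nat.add_le_add_right hnD N)) ?_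
      omega
  · refine (MvPolynomial.totalDegree_mul _ _).trans (Nat.add_le_add ?_ ?_)
    · rw [D0]
      refine (totalDegree_det_le _ E fun r s => (hmt r s).trans (by omega)).trans ?_
      rw [Fintype.card_sum, Fintype.card_fin, Fintype.card_fin]
      exact Nat.mul_le_mul_right _ (Nat.add_le_add_right hnD N)
    · refine (MvPolynomial.totalDegree_pow _ _).trans ?_
      exact Nat.mul_le_mul (by omega) (coeff_totalDegree_le hpf _)
  · obtain ⟨-, -, h⟩ := core (L := FractionRing (KK F m)[X]) ι (κ := κ) (j := j) (A := A) hpdeg hn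
      hqN hwN (by rw [Ne, map_eq_zero_iff _ hιinj]; exact hlc)
      (by rw [Ne, map_eq_zero_iff _ hιinj]; exact hD0) i0 rfl
    rw [map_div₀, tau_algebraMap, tau_algebraMap, htp, htp, htp, hbm]
    exact h
  · intro φ hφ
    have hφ' : (ι.comp φ) (D0 q (p ^ (o + 1)) n N * p.leadingCoeff ^ (o + 1)) ≠ 0 := by
      rw [RingHom.comp_apply, Ne, map_eq_zero_iff _ hιinj]; exact hφ
    rw [map_mul, map_pow] at hφ'
    obtain ⟨h1, h2, h⟩ := core (L := FractionRing (KK F m)[X]) (ι.comp φ) (κ := κ) (j := j) (A := A)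
      hpdeg hn hqN hwN (fun h0 => hφ' (by rw [h0, zero_pow (Nat.succ_ne_zero _), mul_zero]))
      (left_ne_zero_of_mul hφ') i0 rfl
    rw [hsp, hsp, hsp, hbm]
    refine ⟨mul_ne_zero (pow_ne_zero _ h2) h1, h2, ?_⟩
    exact h

end CR26

end Pool.Agent.Lib.MP_64d474_lc.SF
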