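import Mathlib
import Pool.Agent.Lib.MP_64d474_lc.AK.Defs

set_option autoImplicit false

/-!
# Sums of arbitrarily many fractions of low degree in characteristic `p`: definitions, rows
-/

namespace Pool.Agent.Lib.MP_64d474_lc.SF

open Polynomial

universe u

/-- `r` is the sum of the residues of `h` at the roots of `P` -/
def IsRes {k : Type u} [Field k] (P : k[X]) (h : FractionRing k[X]) (r : k) : Prop :=
  ∃ (o : ℕ) (U V B : k[X]), U.degree < ((o * P.natDegree : ℕ) : WithBot ℕ) ∧ IsCoprime B P ∧
    h = algebraMap k[X] (FractionRing k[X]) U / algebraMap k[X] (FractionRing k[X]) P ^ o +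
      algebraMap k[X] (FractionRing k[X]) V / algebraMap k[X] (FractionRing k[X]) B ∧
    r = U.coeff (o * P.natDegree - 1) / P.leadingCoeff ^ o

/-- Row R1: uniqueness. -/
def StR1 : Prop :=
  ∀ (k : Type u) [Field k] (P : k[X]), 0 < P.natDegree → ∀ (h : FractionRing k[X]) (r r' : k),
    IsRes P h r → IsRes P h r' → r = r'

/-- Row R2: existence. -/
def StR2 : Prop :=
  ∀ (k : Type u) [Field k] (P : k[X]), 0 < P.natDegree → ∀ h : FractionRing k[X], ∃ r, IsRes P h r

/-- Row R3: additivity and multiplication by constants. -/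
def StR3 : Prop :=
  ∀ (k : Type u) [Field k] (P : k[X]), 0 < P.natDegree → ∀ (h h' : FractionRing k[X]) (r r' c : k),
    IsRes P h r → IsRes P h' r' → IsRes P (h + h') (r + r') ∧
      IsRes P (algebraMap k[X] (FractionRing k[X]) (C c) * h) (c * r)

/-- Row R4: the Frobenius rule. -/
def StR4 : Prop :=
  ∀ (k : Type u) [Field k] (p : ℕ) [Fact p.Prime] [CharP k p] (P : k[X]), 0 < P.natDegree →
    ∀ (h : FractionRing k[X]) (r : k) (n b : ℕ), b < p ^ n → IsRes P h r →
      IsRes P (algebraMap k[X] (FractionRing k[X]) X ^ b * h ^ p ^ n)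
        (if b = p ^ n - 1 then r ^ p ^ n else 0)

end Pool.Agent.Lib.MP_64d474_lc.SF
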