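import Pool.Agent.Lib.MP_64d474_lc.SF.Res52
import Pool.Agent.Lib.MP_64d474_lc.GF.SF1_99

/-!
# The two definitions of the residue agree; Frobenius
-/

set_option autoImplicit false

open Polynomial

namespace Pool.Agent.Lib.MP_64d474_lc.GF

variable {k L : Type*} [Field k] [Field L] [Algebra k[X] L] [IsFractionRing k[X] L]

theorem isRes_iff52 {Q : k[X]} (hQ : Q ≠ 0) {h : L} {r : k} :
    IsRes Q h r ↔ SF.IsRes Q h r := by
  have hl : ∀ o, Q.leadingCoeff ^ o ≠ 0 := fun o => pow_ne_zero _ (leadingCoeff_ne_zero.mpr hQ)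
  have hdeg : ∀ o : ℕ, (Q ^ o).degree = ((o * Q.natDegree : ℕ) : WithBot ℕ) := fun o => by
    rw [degree_eq_natDegree (pow_ne_zero _ hQ), natDegree_pow]
  have hq : ∀ o : ℕ, algebraMap k[X] L Q ^ o ≠ 0 := fun o => pow_ne_zero _ (algebraMap_ne hQ)
  constructor
  · rintro ⟨o, U, V, B, hU, hB, hB0, he, hr⟩
    refine ⟨o, U, V, B, by rw [hdeg]; exact hU, hB, hB0, ?_, ?_⟩
    · have hb : algebraMap k[X] L B ≠ 0 := algebraMap_ne hB0
      have hqo := hq o
      rw [he, map_mul, map_add, map_mul, map_mul, map_pow]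
      field_simp
    · rw [hr, div_mul_cancel₀ _ (hl o)]
  · rintro ⟨o, U, V, B, hU, hB, hB0, he, hr⟩
    refine ⟨o, U, V, B, by rw [hdeg] at hU; exact hU, hB, hB0, ?_, ?_⟩
    · have hb : algebraMap k[X] L B ≠ 0 := algebraMap_ne hB0
      have hqo := hq o
      rw [map_mul, map_add, map_mul, map_mul, map_pow] at he
      rw [div_add_div _ _ hqo hb, eq_div_iff (mul_ne_zero hqo hb), he]
      ring
    · rw [eq_div_iff (hl o), hr]

/-- Frobenius for the residue -/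
theorem IsRes.frob52 {p : ℕ} [Fact p.Prime] [CharP k p] {Q : k[X]} (hQ : Q ≠ 0) {h : L} {r : k}
    (h1 : IsRes Q h r) (ν b : ℕ) (hb : b < p ^ ν) :
    IsRes Q (algebraMap k[X] L (X ^ b) * h ^ p ^ ν) (if b + 1 = p ^ ν then r ^ p ^ ν else 0) :=
  (isRes_iff52 hQ).mpr (((isRes_iff52 hQ).mp h1).frob ν b hb)

theorem rho_eq52 {Q : k[X]} (hQ : Q ≠ 0) {h : L} {r : k} (hr : IsRes Q h r) :
    SF.rho Q hQ h = r := SF.rho_eq hQ ((isRes_iff52 hQ).mp hr)

theorem rho_isRes52 {Q : k[X]} (hQ : Q ≠ 0) (h : L) : IsRes Q h (SF.rho Q hQ h) :=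
  (isRes_iff52 hQ).mpr (SF.rho_isRes Q hQ h)

end Pool.Agent.Lib.MP_64d474_lc.GF
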