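import Pool.Agent.Lib.MP_64d474_lc.SF.HT97
import Pool.Agent.Lib.MP_64d474_lc.GF.TR88

/-! # Row HT: the core in characteristic `p` gives the generator statement -/

set_option autoImplicit false

namespace Pool.Agent.Lib.MP_64d474_lc.SF

open MvPolynomial Pool.Agent.Lib.MP_64d474_lc.S3

universe u

/-- The core in characteristic `p`: restrictions to few coordinates. -/
def StCoreP97 : Prop :=
  ∀ d t : ℕ, ∃ D s : ℕ, ∀ (F : Type u) [Field F] [Infinite F] (p : ℕ) [Fact p.Prime] [CharP F p]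
    (m : ℕ) (f : MvPolynomial (Fin m) F), GF.Mixed d t f → f ≠ 0 →
    ∃ I : Finset (Fin m), I.card ≤ s ∧ ∃ BB : Finset (MvPolynomial (Fin m) F),
      (∀ b ∈ BB, b ≠ 0 ∧ b.totalDegree ≤ D) ∧
      ∀ o : Fin m → F, (∀ b ∈ BB, eval o b ≠ 0) → AK.res I o f ≠ 0

theorem hitp97 (h : StCoreP97.{u}) : GF.StHITp.{u} := by
  intro d t
  obtain ⟨D, s, hD⟩ := h d t
  refine ⟨D + s, ?_⟩
  intro F _ _ p _ _ m hm f hf hf0
  obtain ⟨I, hI, BB, hBB, hres⟩ := hD F p m f hf hf0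
  exact ht97 (nodes_of_charP97 F p hm.le) f I hI BB hBB hres

theorem hit97 (h : StCoreP97.{u}) : GF.StHIT.{u} := GF.tr88 (hitp97 h)

end Pool.Agent.Lib.MP_64d474_lc.SF
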