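import Pool.Agent.Lib.MP_64d474_lc.SF.AS46
import Pool.Agent.Lib.MP_64d474_lc.SF.HTp97

set_option autoImplicit false

/-!
# The restriction theorem for products of a sum of fractions and polynomials of low degree
-/

namespace Pool.Agent.Lib.MP_64d474_lc.SF

open MvPolynomial

universe u

theorem exists_fin46 {F : Type u} [Field F] {m t : ℕ} {φ : KK F m} (h : φ ∈ GF.AA F m t) :
    ∃ (N : ℕ) (a b : Fin N → MvPolynomial (Fin m) F),
      (∀ j, (a j).totalDegree ≤ t ∧ (b j).totalDegree ≤ t ∧ b j ≠ 0) ∧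
      φ = ∑ j, algebraMap _ (KK F m) (a j) / algebraMap _ (KK F m) (b j) := by
  rw [GF.AA, Submodule.mem_span_set'] at h
  obtain ⟨N, c, g, hg⟩ := h
  choose a b ha hb hb0 hab using fun j : Fin N => (g j).2
  refine ⟨N, fun j => C (c j) * a j, b, fun j => ⟨?_, hb j, hb0 j⟩, ?_⟩
  · refine (totalDegree_mul _ _).trans ?_
    rw [totalDegree_C, zero_add]
    exact ha j
  · rw [← hg]
    refine Finset.sum_congr rfl fun j _ => ?_
    rw [hab j, map_mul, mul_div_assoc, Algebra.smul_def]
    congr 1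

/-- From the restriction theorem to the core statement of row HT. -/
theorem glue46 (hCL1 : StCL1.{u}) (hAS : StAS.{u}) : StCoreP97.{u} := by
  classical
  intro d t
  obtain ⟨D, hD⟩ := hAS t t
  refine ⟨max D (max d t), t, ?_⟩
  intro F _ _ p _ _ m f hf hf0
  obtain ⟨T, hT, φ, hφ, hfφ⟩ := hf
  obtain ⟨N, a, b, hab, rfl⟩ := exists_fin46 hφ
  have hinj := IsFractionRing.injective (MvPolynomial (Fin m) F) (KK F m)
  have h0 : ∑ j, algebraMap _ (KK F m) (a j) / algebraMap _ (KK F m) (b j) ≠ 0 := by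
    intro h0
    rw [h0, mul_zero] at hfφ
    exact hf0 (hinj (by rw [map_zero]; exact hfφ))
  obtain ⟨I, hI, BB, hBB, hgood⟩ := hD F p m N a b hab
    (fun j => hCL1 F p m t (a j) (b j) (hab j).2.2 (hab j).2.1) h0
  refine ⟨I, hI, BB ∪ (T.toFinset ∪ Finset.univ.image b), ?_, ?_⟩
  · intro g hg
    rw [Finset.mem_union, Finset.mem_union] at hg
    rcases hg with hg | hg | hg
    · exact ⟨(hBB g hg).1, (hBB g hg).2.trans (le_max_left _ _)⟩
    · rw [Multiset.mem_toFinset] at hg
      exact ⟨(hT g hg).1, (hT g hg).2.trans ((le_max_left _ _).trans (le_max_right _ _))⟩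
    · obtain ⟨j, -, rfl⟩ := Finset.mem_image.1 hg
      exact ⟨(hab j).2.2, (hab j).2.1.trans ((le_max_right _ _).trans (le_max_right _ _))⟩
  · intro o ho hzero
    have h1 := hgood o fun g hg => ho g (Finset.mem_union_left _ hg)
    have h2 : f * ∏ l, b l = T.prod * ∑ j, a j * ∏ l ∈ Finset.univ.erase j, b l := by
      apply hinj
      rw [map_mul, hfφ, map_mul, ← sum_div_mul_prod (algebraMap _ (KK F m)) a b
        (fun l => (map_ne_zero_iff _ hinj).2 (hab l).2.2), map_prod, mul_assoc]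
    have h3 := congrArg (AK.res I o) h2
    rw [map_mul, hzero, zero_mul, map_mul] at h3
    rcases mul_eq_zero.1 h3.symm with h4 | h4
    · rw [map_multiset_prod, Multiset.prod_eq_zero_iff, Multiset.mem_map] at h4
      obtain ⟨g, hg, hg0⟩ := h4
      refine res_ne_zero_of_eval (ho g ?_) hg0
      exact Finset.mem_union_right _ (Finset.mem_union_left _ (Multiset.mem_toFinset.2 hg))
    · exact h1 h4

/-- HIT in characteristic zero from the rows of the core. -/
theorem hit46 (hCL0 : StCL0.{u}) (hCL1 : StCL1.{u}) (hCL2 : StCL2.{u}) (hCR : StCR.{u})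
    (hPD : StPD.{u}) : GF.StHIT.{u} :=
  hit97 (glue46 hCL1 (as46 hCL0 hCL2 hCR hPD))

end Pool.Agent.Lib.MP_64d474_lc.SF
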