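import Pool.Agent.Lib.MP_64d474_lc.S3.Hit35b
import Pool.Agent.Lib.MP_64d474_lc.AK.Defs

/-! # Row HT: from restrictions to the generator, also in characteristic `p ≥ m` -/

set_option autoImplicit false

namespace Pool.Agent.Lib.MP_64d474_lc.SF

open MvPolynomial Pool.Agent.Lib.MP_64d474_lc.S3

universe u

/-- The nodes `0, 1, ..., m - 1` are different in `F`. -/
def Nodes97 (F : Type*) [Field F] (m : ℕ) : Prop :=
  ∀ a j : Fin m, a ≠ j → ((a : ℕ) : F) ≠ ((j : ℕ) : F)

theorem nodes_of_charZero97 (F : Type*) [Field F] [CharZero F] (m : ℕ) : Nodes97 F m :=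
  fun _ _ h h1 => h (Fin.ext (Nat.cast_injective h1))

theorem nodes_of_charP97 (F : Type*) [Field F] (p : ℕ) [CharP F p] {m : ℕ} (hm : m ≤ p) :
    Nodes97 F m := by
  intro a j h h1
  apply h
  have ha : (a : ℕ) < p := a.2.trans_le hm
  have hj : (j : ℕ) < p := j.2.trans_le hm
  exact Fin.ext ((CharP.natCast_injOn_Iio F p) ha hj h1)

theorem exists_seeds_card97 {F : Type*} [Field F] {m : ℕ} (hn : Nodes97 F m)
    (T : Finset (Fin m)) :
    ∀ x : Fin m → F, (∀ k, k ∉ T → x k = 0) → ∃ y z : Fin T.card → F, pt y z = x := by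
  classical
  induction T using Finset.induction_on with
  | empty =>
    intro x hx
    refine ⟨fun _ => 0, fun _ => 0, ?_⟩
    funext k
    rw [hx k (Finset.notMem_empty k)]
    simp [pt]
  | insert a T ha ih =>
    intro x hx
    obtain ⟨y, z, h⟩ := ih (fun k => if k = a then 0 else x k) (by
      intro k hk
      by_cases hka : k = a
      · simp [hka]
      · simp only [hka, if_false]
        exact hx k (by simp [hka, hk]))
    rw [Finset.card_insert_of_notMem ha]
    have hne : ∏ j ∈ Finset.univ.erase a, (((a : ℕ) : F) - ((j : ℕ) : F)) ≠ 0 := by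
      rw [Finset.prod_ne_zero_iff]
      intro j hj
      rw [sub_ne_zero]
      exact hn a j (Finset.ne_of_mem_erase hj).symm
    refine ⟨Fin.append y (fun _ : Fin 1 => ((a : ℕ) : F)),
      Fin.append z (fun _ : Fin 1 => x a *
        (∏ j ∈ Finset.univ.erase a, (((a : ℕ) : F) - ((j : ℕ) : F)))⁻¹), ?_⟩
    funext k
    rw [pt_append, congrFun h k]
    by_cases hka : k = a
    · subst hka
      simp only [if_true, zero_add, pt, Fin.sum_univ_one]
      rw [mul_assoc, inv_mul_cancel₀ hne, mul_one]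
    · simp only [hka, if_false, pt, Fin.sum_univ_one]
      have h0 : ∏ j ∈ Finset.univ.erase k, (((a : ℕ) : F) - ((j : ℕ) : F)) = 0 :=
        Finset.prod_eq_zero (i := a) (by simp [Ne.symm hka]) (sub_self _)
      rw [h0, mul_zero, add_zero]

theorem exists_seeds97 {F : Type*} [Field F] {m s : ℕ} (hn : Nodes97 F m) (T : Finset (Fin m))
    (hT : T.card ≤ s) (x : Fin m → F) (hx : ∀ k, k ∉ T → x k = 0) :
    ∃ y z : Fin s → F, pt y z = x := by
  obtain ⟨r, rfl⟩ := Nat.exists_eq_add_of_le hT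
  obtain ⟨y, z, h⟩ := exists_seeds_card97 hn T x hx
  refine ⟨Fin.append y (fun _ => 0), Fin.append z (fun _ => 0), ?_⟩
  funext k
  rw [pt_append, congrFun h k]
  simp [pt]

theorem gen_ne_zero97 {F : Type*} [Field F] [Infinite F] {m s : ℕ} (hn : Nodes97 F m)
    {P : MvPolynomial (Fin m) F} (hP : P ≠ 0) (hd : P.totalDegree ≤ s) : gen F m s P ≠ 0 := by
  obtain ⟨T, hT, x, hx, hne⟩ := exists_sparse_point hP hd
  obtain ⟨y, z, hyz⟩ := exists_seeds97 hn T hT x hx
  intro h0
  apply hne
  have h1 := eval_gen (s := s) P (Sum.elim y z)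
  rw [h0, map_zero] at h1
  simp only [Sum.elim_inl, Sum.elim_inr] at h1
  rw [← hyz]
  exact h1.symm

theorem eval_res97 {F : Type*} [Field F] {m : ℕ} (I : Finset (Fin m)) (o x : Fin m → F)
    (f : MvPolynomial (Fin m) F) :
    eval x (AK.res I o f) = eval (fun i => o i + if i ∈ I then x i else 0) f := by
  have h1 := MvPolynomial.comp_aeval_apply
    (fun i => (C (o i) : MvPolynomial (Fin m) F) + if i ∈ I then X i else 0)
    (aeval x : MvPolynomial (Fin m) F →ₐ[F] F) f
  have h2 : (fun i => (aeval x) ((C (o i) : MvPolynomial (Fin m) F) + if i ∈ I then X i else 0)) =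
      fun i => o i + if i ∈ I then x i else 0 := by
    funext i
    by_cases hi : i ∈ I
    · rw [if_pos hi, if_pos hi, map_add, aeval_X, MvPolynomial.algHom_C]
      rfl
    · rw [if_neg hi, if_neg hi, map_add, map_zero, MvPolynomial.algHom_C]
      rfl
  rw [h2, aeval_eq_eval, aeval_eq_eval] at h1
  exact h1

/-- HT. -/
theorem ht97 {F : Type*} [Field F] [Infinite F] {m D t : ℕ} (hn : Nodes97 F m)
    (f : MvPolynomial (Fin m) F) (I : Finset (Fin m)) (hI : I.card ≤ t)
    (BB : Finset (MvPolynomial (Fin m) F)) (hBB : ∀ b ∈ BB, b ≠ 0 ∧ b.totalDegree ≤ D)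
    (h : ∀ o : Fin m → F, (∀ b ∈ BB, eval o b ≠ 0) → AK.res I o f ≠ 0) :
    gen F m (D + t) f ≠ 0 := by
  intro h0
  have hprod : gen F m D (∏ b ∈ BB, b) ≠ 0 := by
    rw [map_prod, Finset.prod_ne_zero_iff]
    exact fun b hb => gen_ne_zero97 hn (hBB b hb).1 (hBB b hb).2
  obtain ⟨e, he, h2⟩ := exists_direction h0 hprod
  rw [map_prod, Finset.prod_ne_zero_iff] at he
  have h3 := h e he
  obtain ⟨x, hx⟩ : ∃ x : Fin m → F, eval x (AK.res I e f) ≠ 0 := by
    by_contra hno
    push Not at hno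
    exact h3 (MvPolynomial.funext fun x => by rw [map_zero]; exact hno x)
  rw [eval_res97] at hx
  obtain ⟨y, z, hyz⟩ := exists_seeds97 hn I hI (fun i => if i ∈ I then x i else 0)
    (fun k hk => by simp [hk])
  apply hx
  have h4 := h2 (R := F) y z 1
  rw [aeval_eq_eval] at h4
  have h5 : (fun k => pt y z k + 1 * (algebraMap F F) (e k)) =
      fun i => e i + if i ∈ I then x i else 0 := by
    funext i
    rw [hyz, one_mul, add_comm]
    rfl
  rw [h5] at h4
  exact h4

end Pool.Agent.Lib.MP_64d474_lc.SF
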