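import Pool.Agent.Lib.MP_64d474_lc.SF.HT97
import Pool.Agent.Lib.MP_64d474_lc.SF.Defs46
import Pool.Agent.Lib.MP_64d474_lc.GF.TR88

/-! # Row HT: from the restriction theorem to the generator -/

set_option autoImplicit false

namespace Pool.Agent.Lib.MP_64d474_lc.SF

open MvPolynomial Pool.Agent.Lib.MP_64d474_lc.S3

universe u

theorem num_den97 {F : Type u} [Field F] {m N : ℕ} (a b : Fin N → MvPolynomial (Fin m) F)
    (hb : ∀ j, b j ≠ 0) :
    (∑ j, algebraMap _ (KK F m) (a j) / algebraMap _ (KK F m) (b j)) *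
      algebraMap _ (KK F m) (∏ l, b l) =
      algebraMap _ (KK F m) (∑ j, a j * ∏ l ∈ Finset.univ.erase j, b l) := by
  rw [Finset.sum_mul, map_sum]
  refine Finset.sum_congr rfl fun j _ => ?_
  have h1 : algebraMap (MvPolynomial (Fin m) F) (KK F m) (b j) ≠ 0 := by
    intro h
    exact hb j (IsFractionRing.injective (MvPolynomial (Fin m) F) (KK F m)
      (by rw [h, map_zero]))
  rw [← Finset.mul_prod_erase Finset.univ b (Finset.mem_univ j), map_mul, map_mul]
  field_simp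

/-- Row HT. -/
theorem htRow97 (hCL1 : StCL1.{u}) (hAS : StAS.{u}) : StHITp.{u} := by
  classical
  intro d t
  obtain ⟨D', hD'⟩ := hAS t t
  refine ⟨D' + d + t, ?_⟩
  intro F _ _ p _ _ m hm f hf hf0 hgen
  obtain ⟨T, hT, φ, hφ, hfφ⟩ := hf
  obtain ⟨L, hL, hφL⟩ := GF.mem_AA88 hφ
  have hn : Nodes97 F m := nodes_of_charP97 F p hm.le
  obtain ⟨a, ha⟩ : ∃ a : Fin L.length → MvPolynomial (Fin m) F, a = fun j => (L[j.val]).1 :=
    ⟨_, rfl⟩
  obtain ⟨b, hb⟩ : ∃ b : Fin L.length → MvPolynomial (Fin m) F, b = fun j => (L[j.val]).2 :=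
    ⟨_, rfl⟩
  have hab : ∀ j, (a j).totalDegree ≤ t ∧ (b j).totalDegree ≤ t ∧ b j ≠ 0 := by
    intro j
    rw [ha, hb]
    exact hL _ (List.getElem_mem _)
  have hφs : φ = ∑ j, algebraMap _ (KK F m) (a j) / algebraMap _ (KK F m) (b j) := by
    rw [hφL, ha, hb]
    exact (Fin.sum_univ_fun_getElem L (fun x => algebraMap _ (KK F m) x.1 /
      algebraMap _ (KK F m) x.2)).symm
  have hφ0 : φ ≠ 0 := by
    intro h
    rw [h, mul_zero] at hfφ
    exact hf0 (IsFractionRing.injective (MvPolynomial (Fin m) F)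
      (FractionRing (MvPolynomial (Fin m) F)) (by rw [hfφ, map_zero]))
  obtain ⟨I, hI, BB, hBB, hres⟩ := hD' F p m L.length a b hab
    (fun j => hCL1 F p m t (a j) (b j) (hab j).2.2 (hab j).2.1) (by rw [← hφs]; exact hφ0)
  have hnum : gen F m (D' + d + t) (∑ j, a j * ∏ l ∈ Finset.univ.erase j, b l) ≠ 0 :=
    ht97 hn _ I hI BB (fun g hg => ⟨(hBB g hg).1, (hBB g hg).2.trans (Nat.le_add_right _ _)⟩) hres
  have hTg : gen F m (D' + d + t) T.prod ≠ 0 := by
    rw [map_multiset_prod, Ne, Multiset.prod_eq_zero_iff, Multiset.mem_map]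
    rintro ⟨P, hP, h0⟩
    exact gen_ne_zero97 hn (hT P hP).1 ((hT P hP).2.trans (by omega)) h0
  have hid : f * ∏ l, b l = T.prod * ∑ j, a j * ∏ l ∈ Finset.univ.erase j, b l := by
    apply IsFractionRing.injective (MvPolynomial (Fin m) F)
      (FractionRing (MvPolynomial (Fin m) F))
    have h1 := num_den97 a b (fun j => (hab j).2.2)
    rw [← hφs] at h1
    rw [map_mul, hfφ, map_mul, ← h1, mul_assoc]
  have h2 : gen F m (D' + d + t) T.prod *
      gen F m (D' + d + t) (∑ j, a j * ∏ l ∈ Finset.univ.erase j, b l) = 0 := by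
    rw [← map_mul, ← hid, map_mul, hgen, zero_mul]
  rcases mul_eq_zero.1 h2 with h3 | h3
  · exact hTg h3
  · exact hnum h3

theorem hitRow97 (hCL1 : StCL1.{u}) (hAS : StAS.{u}) : GF.StHIT.{u} :=
  GF.tr88 (htRow97 hCL1 hAS)

end Pool.Agent.Lib.MP_64d474_lc.SF
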