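import Mathlib

/-!
# Sum of the residues of a rational function at the roots of a polynomial

`IsRes Q h r`: `h = U / Q ^ o + V / B` with `deg U < deg Q ^ o`, `B` coprime to `Q`, and
`r = coeff U (deg Q ^ o - 1) / lc Q ^ o`.
-/

set_option autoImplicit false

namespace SF

open Polynomial

section res

variable {k L : Type*} [Field k] [Field L] [Algebra k[X] L] [IsFractionRing k[X] L]

/-- `r` is the sum of the residues of `h` at the roots of `Q`. -/
def IsRes (Q : k[X]) (h : L) (r : k) : Prop :=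
  ∃ (o : ℕ) (U V B : k[X]), U.degree < (Q ^ o).degree ∧ IsCoprime B Q ∧ B ≠ 0 ∧
    h * algebraMap k[X] L (Q ^ o * B) = algebraMap k[X] L (U * B + V * Q ^ o) ∧
    r * Q.leadingCoeff ^ o = U.coeff (o * Q.natDegree - 1)

omit [IsFractionRing k[X] L] in
/-- the exponent may be raised -/
theorem IsRes.raise {Q : k[X]} (hQ : Q ≠ 0) {h : L} {r : k} {o : ℕ} {U V B : k[X]}
    (hU : U.degree < (Q ^ o).degree)
    (he : h * algebraMap k[X] L (Q ^ o * B) = algebraMap k[X] L (U * B + V * Q ^ o))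
    (hr : r * Q.leadingCoeff ^ o = U.coeff (o * Q.natDegree - 1)) (s : ℕ) :
    (U * Q ^ s).degree < (Q ^ (o + s)).degree ∧
    h * algebraMap k[X] L (Q ^ (o + s) * B) =
      algebraMap k[X] L (U * Q ^ s * B + V * Q ^ (o + s)) ∧
    r * Q.leadingCoeff ^ (o + s) = (U * Q ^ s).coeff ((o + s) * Q.natDegree - 1) := by
  have hs : Q ^ s ≠ 0 := pow_ne_zero _ hQ
  have ho : Q ^ o ≠ 0 := pow_ne_zero _ hQ
  refine ⟨?_, ?_, ?_⟩
  · rw [pow_add, degree_mul, degree_mul]
    have h1 : (Q ^ s).degree ≠ ⊥ := degree_ne_bot.mpr hs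
    exact WithBot.add_lt_add_right h1 hU
  · have h1 : h * algebraMap k[X] L (Q ^ (o + s) * B) =
        (h * algebraMap k[X] L (Q ^ o * B)) * algebraMap k[X] L (Q ^ s) := by
      rw [pow_add, map_mul, map_mul, map_mul]; ring
    rw [h1, he, ← map_mul]
    congr 1
    rw [pow_add]; ring
  · rcases eq_or_ne U 0 with h0 | h0
    · subst h0
      have h1 : r * Q.leadingCoeff ^ o = 0 := by rw [hr]; simp
      rw [pow_add, ← mul_assoc, h1]; simp
    · have hd : U.natDegree < o * Q.natDegree := by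
        rw [degree_eq_natDegree h0, degree_eq_natDegree ho, natDegree_pow] at hU
        exact_mod_cast hU
      have h2 : (o + s) * Q.natDegree - 1 = (o * Q.natDegree - 1) + (Q ^ s).natDegree := by
        rw [natDegree_pow, add_mul]; omega
      have h3 : (U * Q ^ s).coeff ((o * Q.natDegree - 1) + (Q ^ s).natDegree) =
          U.coeff (o * Q.natDegree - 1) * (Q ^ s).coeff (Q ^ s).natDegree :=
        coeff_mul_add_eq_of_natDegree_le (by omega) le_rfl
      rw [h2, h3, ← hr, pow_add, coeff_natDegree, leadingCoeff_pow]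
      ring

theorem IsRes.unique {Q : k[X]} (hQ : Q ≠ 0) {h : L} {r r' : k} (h1 : IsRes Q h r)
    (h2 : IsRes Q h r') : r = r' := by
  obtain ⟨o, U, V, B, hU, hB, hB0, he, hr⟩ := h1
  obtain ⟨o', U', V', B', hU', hB', hB0', he', hr'⟩ := h2
  obtain ⟨a1, a2, a3⟩ := IsRes.raise hQ hU he hr o'
  obtain ⟨b1, b2, b3⟩ := IsRes.raise hQ hU' he' hr' o
  rw [add_comm o' o] at b1 b2 b3
  have hinj : Function.Injective (algebraMap k[X] L) := IsFractionRing.injective k[X] L
  have key : (U * Q ^ o' - U' * Q ^ o) * (B * B') = (V' * B - V * B') * Q ^ (o + o') := by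
    apply hinj
    have e1 : h * algebraMap k[X] L (Q ^ (o + o') * B) * algebraMap k[X] L B' =
        algebraMap k[X] L ((U * Q ^ o' * B + V * Q ^ (o + o')) * B') := by
      rw [a2, map_mul]
    have e2 : h * algebraMap k[X] L (Q ^ (o + o') * B') * algebraMap k[X] L B =
        algebraMap k[X] L ((U' * Q ^ o * B' + V' * Q ^ (o + o')) * B) := by
      rw [b2, map_mul]
    have e3 : h * algebraMap k[X] L (Q ^ (o + o') * B) * algebraMap k[X] L B' =
        h * algebraMap k[X] L (Q ^ (o + o') * B') * algebraMap k[X] L B := by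
      rw [map_mul, map_mul]; ring
    have e4 := (e1.symm.trans e3).trans e2
    have e5 := hinj e4
    congr 1
    linear_combination e5
  have hcop : IsCoprime (Q ^ (o + o')) (B * B') :=
    (IsCoprime.mul_left hB hB').symm.pow_left
  have hdvd : Q ^ (o + o') ∣ (U * Q ^ o' - U' * Q ^ o) :=
    hcop.dvd_of_dvd_mul_right ⟨V' * B - V * B', by rw [key]; ring⟩
  have hz : U * Q ^ o' - U' * Q ^ o = 0 := by
    refine eq_zero_of_dvd_of_degree_lt hdvd (lt_of_le_of_lt (degree_sub_le _ _) ?_)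
    exact max_lt a1 b1
  have hUU : U * Q ^ o' = U' * Q ^ o := sub_eq_zero.mp hz
  have hl : Q.leadingCoeff ^ (o + o') ≠ 0 := pow_ne_zero _ (leadingCoeff_ne_zero.mpr hQ)
  apply mul_right_cancel₀ hl
  rw [a3, b3, hUU]

omit [IsFractionRing k[X] L] in
theorem IsRes.add {Q : k[X]} (hQ : Q ≠ 0) {h h' : L} {r r' : k} (h1 : IsRes Q h r)
    (h2 : IsRes Q h' r') : IsRes Q (h + h') (r + r') := by
  obtain ⟨o, U, V, B, hU, hB, hB0, he, hr⟩ := h1
  obtain ⟨o', U', V', B', hU', hB', hB0', he', hr'⟩ := h2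
  obtain ⟨a1, a2, a3⟩ := IsRes.raise hQ hU he hr o'
  obtain ⟨b1, b2, b3⟩ := IsRes.raise hQ hU' he' hr' o
  rw [add_comm o' o] at b1 b2 b3
  refine ⟨o + o', U * Q ^ o' + U' * Q ^ o, V * B' + V' * B, B * B',
    lt_of_le_of_lt (degree_add_le _ _) (max_lt a1 b1), IsCoprime.mul_left hB hB',
    mul_ne_zero hB0 hB0', ?_, ?_⟩
  · have e1 : (h + h') * algebraMap k[X] L (Q ^ (o + o') * (B * B')) =
        h * algebraMap k[X] L (Q ^ (o + o') * B) * algebraMap k[X] L B' +
        h' * algebraMap k[X] L (Q ^ (o + o') * B') * algebraMap k[X] L B := by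
      simp only [map_mul]; ring
    rw [e1, a2, b2, ← map_mul, ← map_mul, ← map_add]
    congr 1
    ring
  · rw [add_mul, a3, b3, coeff_add]

omit [IsFractionRing k[X] L] in
theorem IsRes.smul {Q : k[X]} {h : L} {r : k} (h1 : IsRes Q h r) (c : k) :
    IsRes Q (algebraMap k[X] L (C c) * h) (c * r) := by
  obtain ⟨o, U, V, B, hU, hB, hB0, he, hr⟩ := h1
  refine ⟨o, C c * U, C c * V, B, lt_of_le_of_lt (by rw [← smul_eq_C_mul]; exact degree_smul_le c U) hU,
    hB, hB0, ?_, ?_⟩
  · rw [mul_assoc, he, ← map_mul]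
    congr 1
    ring
  · rw [mul_assoc, hr, coeff_C_mul]

omit [IsFractionRing k[X] L] in
theorem isRes_regular {Q A B : k[X]} {h : L} (hB : IsCoprime B Q) (hB0 : B ≠ 0)
    (h1 : h * algebraMap k[X] L B = algebraMap k[X] L A) : IsRes Q h 0 := by
  refine ⟨0, 0, A, B, ?_, hB, hB0, ?_, ?_⟩
  · simp
  · simpa using h1
  · simp

theorem split (Q : k[X]) : ∀ (n : ℕ) (B : k[X]), B ≠ 0 → B.natDegree ≤ n →
    ∃ (o : ℕ) (B1 B' : k[X]), B = B1 * B' ∧ B1 ∣ Q ^ o ∧ IsCoprime B' Q := by
  intro n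
  induction n with
  | zero =>
    intro B hB hn
    refine ⟨0, 1, B, by simp, by simp, ?_⟩
    have hu : IsUnit B := by
      rw [Polynomial.isUnit_iff]
      refine ⟨B.coeff 0, ?_, (eq_C_of_natDegree_le_zero hn).symm⟩
      rw [isUnit_iff_ne_zero]
      intro h0
      apply hB
      rw [eq_C_of_natDegree_le_zero hn, h0, C_0]
    obtain ⟨u, hu⟩ := hu
    exact ⟨↑u⁻¹, 0, by simp [← hu]⟩
  | succ n ih =>
    intro B hB hn
    classical
    by_cases hc : IsCoprime B Q
    · exact ⟨0, 1, B, by simp, by simp, hc⟩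
    · set g := EuclideanDomain.gcd B Q with hg
      have hgu : ¬ IsUnit g := fun h => hc (EuclideanDomain.gcd_isUnit_iff.mp h)
      obtain ⟨B2, hB2⟩ := EuclideanDomain.gcd_dvd_left B Q
      rw [← hg] at hB2
      have hg0 : g ≠ 0 := by rintro h0; rw [h0, zero_mul] at hB2; exact hB hB2
      have hB20 : B2 ≠ 0 := by rintro h0; rw [h0, mul_zero] at hB2; exact hB hB2
      have hgd : 0 < g.natDegree := by
        rcases Nat.eq_zero_or_pos g.natDegree with h0 | h0
        · exfalso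
          apply hgu
          rw [Polynomial.isUnit_iff]
          refine ⟨g.coeff 0, ?_, (eq_C_of_natDegree_le_zero h0.le).symm⟩
          rw [isUnit_iff_ne_zero]
          intro h1
          apply hg0
          rw [eq_C_of_natDegree_le_zero h0.le, h1, C_0]
        · exact h0
      have hdeg : B2.natDegree ≤ n := by
        have := natDegree_mul hg0 hB20
        rw [← hB2] at this
        omega
      obtain ⟨o, B1, B', h1, h2, h3⟩ := ih B2 hB20 hdeg
      refine ⟨o + 1, g * B1, B', by rw [hB2, h1]; ring, ?_, h3⟩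
      rw [pow_succ, mul_comm]
      exact mul_dvd_mul h2 (EuclideanDomain.gcd_dvd_right B Q)

theorem exists_isRes {Q : k[X]} (hQ : Q ≠ 0) (h : L) : ∃ r, IsRes Q h r := by
  obtain ⟨A, B, hB, rfl⟩ := IsFractionRing.div_surjective k[X] h
  have hB0 : B ≠ 0 := nonZeroDivisors.ne_zero hB
  obtain ⟨o, B1, B', h1, ⟨D, hD⟩, h3⟩ := split Q B.natDegree B hB0 le_rfl
  have hQo : Q ^ o ≠ 0 := pow_ne_zero _ hQ
  have hB'0 : B' ≠ 0 := by rintro rfl; exact hB0 (by rw [h1, mul_zero])
  have hB10 : B1 ≠ 0 := by rintro rfl; exact hB0 (by rw [h1, zero_mul])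
  obtain ⟨a, b, hab⟩ : IsCoprime (Q ^ o) B' := h3.symm.pow_left
  have hBL : algebraMap k[X] L B ≠ 0 := by
    rw [Ne, IsFractionRing.to_map_eq_zero_iff]; exact hB0
  have hl : Q.leadingCoeff ^ o ≠ 0 := pow_ne_zero _ (leadingCoeff_ne_zero.mpr hQ)
  refine ⟨(A * D * b % Q ^ o).coeff (o * Q.natDegree - 1) / Q.leadingCoeff ^ o, o,
    A * D * b % Q ^ o, (A * D * b / Q ^ o) * B' + A * D * a, B', degree_mod_lt _ hQo, h3, hB'0,
    ?_, ?_⟩
  · have e1 : Q ^ o * B' = B * D := by rw [hD, h1]; ring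
    rw [e1, map_mul, ← mul_assoc, div_mul_cancel₀ _ hBL, ← map_mul]
    congr 1
    have e2 := EuclideanDomain.mod_add_div (A * D * b) (Q ^ o)
    calc A * D = A * D * (a * Q ^ o + b * B') := by rw [hab, mul_one]
      _ = A * D * a * Q ^ o + (A * D * b) * B' := by ring
      _ = A * D * a * Q ^ o + (A * D * b % Q ^ o + Q ^ o * (A * D * b / Q ^ o)) * B' := by
        rw [e2]
      _ = _ := by ring
  · rw [div_mul_cancel₀ _ hl]

/-- Frobenius: a power of the variable smaller than the last one kills a `q`-th power. -/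
theorem IsRes.frob {p : ℕ} [Fact p.Prime] [CharP k p] {Q : k[X]} {h : L} {r : k}
    (h1 : IsRes Q h r) (ν b : ℕ) (hb : b < p ^ ν) :
    IsRes Q (algebraMap k[X] L (X ^ b) * h ^ p ^ ν) (if b + 1 = p ^ ν then r ^ p ^ ν else 0) := by
  obtain ⟨o, U, V, B, hU, hB, hB0, he, hr⟩ := h1
  have hq : 0 < p ^ ν := by omega
  set q := p ^ ν with hqdef
  have hQo : Q ^ o ≠ 0 := by
    rintro h0
    rw [h0, degree_zero] at hU
    exact not_lt_bot hU
  have hpow : (Q ^ o) ^ q = Q ^ (o * q) := by rw [← pow_mul]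
  refine ⟨o * q, X ^ b * U ^ q, X ^ b * V ^ q, B ^ q, ?_, hB.pow_left, pow_ne_zero _ hB0, ?_, ?_⟩
  · rcases eq_or_ne U 0 with h0 | h0
    · subst h0
      rw [zero_pow hq.ne', mul_zero, degree_zero, bot_lt_iff_ne_bot, Ne, degree_eq_bot, ← hpow]
      exact pow_ne_zero _ hQo
    · rw [← hpow, degree_eq_natDegree (mul_ne_zero (pow_ne_zero _ X_ne_zero) (pow_ne_zero _ h0)),
        degree_eq_natDegree (pow_ne_zero _ hQo), natDegree_mul (pow_ne_zero _ X_ne_zero)
        (pow_ne_zero _ h0), natDegree_pow, natDegree_pow, natDegree_pow, natDegree_X]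
      rw [degree_eq_natDegree h0, degree_eq_natDegree hQo] at hU
      have hU' : U.natDegree < (Q ^ o).natDegree := by exact_mod_cast hU
      have : b * 1 + q * U.natDegree < q * (Q ^ o).natDegree := by nlinarith
      exact_mod_cast this
  · have e1 : algebraMap k[X] L (X ^ b) * h ^ q * algebraMap k[X] L (Q ^ (o * q) * B ^ q) =
        algebraMap k[X] L (X ^ b) * (h * algebraMap k[X] L (Q ^ o * B)) ^ q := by
      have e0 : algebraMap k[X] L (Q ^ (o * q) * B ^ q) = (algebraMap k[X] L (Q ^ o * B)) ^ q := by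
        rw [← map_pow, mul_pow, hpow]
      rw [e0, mul_pow]
      ring
    rw [e1, he, ← map_pow, ← map_mul]
    congr 1
    rw [hqdef, add_pow_char_pow, ← hqdef, mul_pow, mul_pow, ← hpow]
    ring
  · have hc : ∀ n, (U ^ q).coeff n = if q ∣ n then (U.coeff (n / q)) ^ q else 0 := by
      intro n
      rw [hqdef, ← map_iterateFrobenius_expand p U ν, coeff_map, coeff_expand (hqdef ▸ hq)]
      split_ifs
      · rw [iterateFrobenius_def]
      · rw [map_zero]
    have hlc : Q.leadingCoeff ^ (o * q) = (Q.leadingCoeff ^ o) ^ q := pow_mul _ _ _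
    rcases Nat.eq_zero_or_pos (o * Q.natDegree) with h0 | h0
    · have hU0 : U = 0 := by
        rw [degree_eq_natDegree hQo, natDegree_pow, h0] at hU
        exact degree_eq_bot.mp (Nat.WithBot.lt_zero_iff.mp (by exact_mod_cast hU))
      have hr0 : (r * Q.leadingCoeff ^ o) = 0 := by rw [hr, hU0]; simp
      rw [hU0, zero_pow hq.ne', mul_zero, coeff_zero]
      split_ifs
      · rw [hlc, ← mul_pow, hr0, zero_pow hq.ne']
      · rw [zero_mul]
    · have hidx : o * q * Q.natDegree - 1 = (q * (o * Q.natDegree) - 1 - b) + b := by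
        have h1 : o * q * Q.natDegree = q * (o * Q.natDegree) := by ring
        have h2 : q * 1 ≤ q * (o * Q.natDegree) := Nat.mul_le_mul_left _ h0
        omega
      rw [hidx, mul_comm (X ^ b) (U ^ q), coeff_mul_X_pow, hc]
      have h2 : q * 1 ≤ q * (o * Q.natDegree) := Nat.mul_le_mul_left _ h0
      split_ifs with c1 c2 c2
      · have h3 : q * (o * Q.natDegree) - 1 - b = q * (o * Q.natDegree - 1) := by
          rw [Nat.mul_sub]; omega
        rw [h3, Nat.mul_div_cancel_left _ hq, ← hr, hlc, mul_pow]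
      · exfalso
        apply c2
        refine ⟨o * Q.natDegree - 1, ?_⟩
        rw [Nat.mul_sub]; omega
      · exfalso
        obtain ⟨s, hs⟩ := c2
        have h4 : q * (o * Q.natDegree) = q * s + (b + 1) := by omega
        have h5 : q ∣ b + 1 := by
          have : q ∣ q * s + (b + 1) := h4 ▸ Dvd.intro _ rfl
          exact (Nat.dvd_add_right (Dvd.intro _ rfl)).mp this
        have h6 := Nat.le_of_dvd (Nat.succ_pos _) h5
        omega
      · rw [zero_mul]

/-- the residue functional -/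
noncomputable def rho (Q : k[X]) (hQ : Q ≠ 0) : L →+ k where
  toFun h := (exists_isRes hQ h).choose
  map_zero' := IsRes.unique (L := L) hQ (exists_isRes hQ 0).choose_spec
    (isRes_regular (A := 0) (B := 1) isCoprime_one_left one_ne_zero (by simp))
  map_add' h h' := IsRes.unique hQ (exists_isRes hQ (h + h')).choose_spec
    ((exists_isRes hQ h).choose_spec.add hQ (exists_isRes hQ h').choose_spec)

theorem rho_isRes (Q : k[X]) (hQ : Q ≠ 0) (h : L) : IsRes Q h (rho Q hQ h) :=
  (exists_isRes hQ h).choose_spec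

theorem rho_eq {Q : k[X]} (hQ : Q ≠ 0) {h : L} {r : k} (hr : IsRes Q h r) :
    rho Q hQ h = r := (rho_isRes Q hQ h).unique hQ hr

theorem rho_smul (Q : k[X]) (hQ : Q ≠ 0) (c : k) (h : L) :
    rho Q hQ (algebraMap k[X] L (C c) * h) = c * rho Q hQ h :=
  rho_eq hQ ((rho_isRes Q hQ h).smul c)

theorem rho_frob {p : ℕ} [Fact p.Prime] [CharP k p] (Q : k[X]) (hQ : Q ≠ 0) (h : L) (ν b : ℕ)
    (hb : b < p ^ ν) : rho Q hQ (algebraMap k[X] L (X ^ b) * h ^ p ^ ν) =
      if b + 1 = p ^ ν then (rho Q hQ h) ^ p ^ ν else 0 :=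
  rho_eq hQ ((rho_isRes Q hQ h).frob ν b hb)

end res

end SF
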